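import Mathlib

/-!
# MP_b00f94_an : the notions of the problem, for the group `G = ℝ`

`G = ℝ`, with dual group `ℝ` and pairing `⟨ξ, x⟩ = e^{2πiξx}`.
-/

namespace Pool.Agent.Lib.MP_b00f94_an

open MeasureTheory FourierTransform
open scoped ENNReal

/-- The value at `α` of the modular function: the measure of the image of `[0,1]`. -/
noncomputable def modular (α : ℝ ≃ₜ+ ℝ) : ℝ := (volume (α '' Set.Icc (0 : ℝ) 1)).toReal

/-- `β` is the adjoint of the automorphism `α`: `⟨β ξ, x⟩ = ⟨ξ, α x⟩` for all `ξ`, `x`. -/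
def IsAdjoint (α β : ℝ ≃ₜ+ ℝ) : Prop :=
  ∀ ξ x : ℝ, (Real.fourierChar (β ξ * x) : ℂ) = Real.fourierChar (ξ * α x)

/-- The function `ψ_{t,α}(x) = Δ(α)^{1/2} ψ(α(x) - t)`. -/
noncomputable def wavelet (ψ : ℝ → ℂ) (α : ℝ ≃ₜ+ ℝ) (t : ℝ) : ℝ → ℂ :=
  fun x => (Real.sqrt (modular α) : ℂ) * ψ (α x - t)

/-- The family `f` is an orthogonal basis of `L²(ℝ)`: its members are square integrable, of
nonzero norm and pairwise orthogonal, and a square integrable function orthogonal to all of them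
is zero almost everywhere. -/
def IsOrthBasis {ι : Type} (f : ι → ℝ → ℂ) : Prop :=
  (∀ i, MemLp (f i) 2 volume) ∧ (∀ i, 0 < ∫ x, ‖f i x‖ ^ 2) ∧
  (∀ i j, i ≠ j → ∫ x, f i x * (starRingEnd ℂ) (f j x) = 0) ∧
  ∀ g : ℝ → ℂ, MemLp g 2 volume → (∀ i, ∫ x, g x * (starRingEnd ℂ) (f i x) = 0) →
    g =ᵐ[volume] 0

/-- `Ω` is a wavelet set with respect to the set `A` of automorphisms and the set `Λ` of
translations: there is `ψ ∈ L²(ℝ)`, whose Fourier transform is the indicator function of `Ω`, such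
that the functions `ψ_{t,α}`, `α ∈ A`, `t ∈ Λ`, form an orthogonal basis of `L²(ℝ)`. -/
structure IsWaveletSet (A : Set (ℝ ≃ₜ+ ℝ)) (Λ Ω : Set ℝ) : Prop where
  countable_dil : A.Countable
  countable_trans : Λ.Countable
  measurable : MeasurableSet Ω
  pos : 0 < volume Ω
  finite : volume Ω < ⊤
  basis : ∃ (ψ : ℝ → ℂ) (hψ : MemLp ψ 2 volume),
    (𝓕 (hψ.toLp ψ) : Lp ℂ 2 (volume : Measure ℝ)) =ᵐ[volume] Ω.indicator (fun _ => (1 : ℂ)) ∧
    IsOrthBasis fun p : A × Λ => wavelet ψ p.1 p.2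

/-- `Ω` tiles `ℝ` multiplicatively with multiplicity `k` by the set `A'` of automorphisms, which
act through their adjoints. -/
def TilesMult (Ω : Set ℝ) (A' : Set (ℝ ≃ₜ+ ℝ)) (k : ℕ) : Prop :=
  ∃ adj : (ℝ ≃ₜ+ ℝ) → (ℝ ≃ₜ+ ℝ), (∀ α, IsAdjoint α (adj α)) ∧
    ∀ᵐ ξ : ℝ, ∑' α : A', ((adj α) '' Ω).indicator (fun _ => (1 : ℝ≥0∞)) ξ = k

end Pool.Agent.Lib.MP_b00f94_an
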