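import Mathlib
import Pool.Agent.Lib.MP_b00f94_an.Defs

section

section

/-!
# MP_b00f94_an : the set, and the absence of multiplicative tilings
-/

namespace Pool.Agent.Lib.MP_b00f94_an

open MeasureTheory Set
open scoped ENNReal

/-- the wavelet set -/
def Om : Set ℝ :=
  Ioc 5 7 ∪ Ioc 15 40 ∪ Ioc 112 120 ∪ Ioc (-7) (-5) ∪ Ioc (-40) (-15) ∪ Ioc (-120) (-112)

lemma mem_Om {x : ℝ} : x ∈ Om ↔ (5 < x ∧ x ≤ 7) ∨ (15 < x ∧ x ≤ 40) ∨ (112 < x ∧ x ≤ 120) ∨
    (-7 < x ∧ x ≤ -5) ∨ (-40 < x ∧ x ≤ -15) ∨ (-120 < x ∧ x ≤ -112) := by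
  simp only [Om, mem_union, mem_Ioc, or_assoc]

lemma measurableSet_Om : MeasurableSet Om := by
  unfold Om
  measurability

/-- the dilate of the set by `b` -/
def dOm (b : ℝ) : Set ℝ := (fun x => b * x) '' Om

lemma mem_dOm {b x : ℝ} (hb : b ≠ 0) : x ∈ dOm b ↔ x / b ∈ Om := by
  unfold dOm
  rw [mem_image]
  constructor
  · rintro ⟨y, hy, rfl⟩
    rwa [mul_div_cancel_left₀ _ hb]
  · intro h
    exact ⟨x / b, h, mul_div_cancel₀ x hb⟩

lemma dOm_cover {b x : ℝ} (hb : b ≠ 0) (hx : 0 < x) (h : x ∈ dOm b) :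
    (5 * |b| ≤ x ∧ x ≤ 7 * |b|) ∨ (15 * |b| ≤ x ∧ x ≤ 40 * |b|) ∨
      (112 * |b| ≤ x ∧ x ≤ 120 * |b|) := by
  rw [mem_dOm hb, mem_Om] at h
  rcases lt_or_gt_of_ne hb with hb' | hb'
  · rw [abs_of_neg hb']
    have hneg : x / b < 0 := div_neg_of_pos_of_neg hx hb'
    rcases h with h | h | h | h | h | h
    · linarith [h.1]
    · linarith [h.1]
    · linarith [h.1]
    · left
      rw [lt_div_iff_of_neg hb', div_le_iff_of_neg hb'] at h
      constructor <;> linarith [h.1, h.2]
    · right; left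
      rw [lt_div_iff_of_neg hb', div_le_iff_of_neg hb'] at h
      constructor <;> linarith [h.1, h.2]
    · right; right
      rw [lt_div_iff_of_neg hb', div_le_iff_of_neg hb'] at h
      constructor <;> linarith [h.1, h.2]
  · rw [abs_of_pos hb']
    have hpos : 0 < x / b := div_pos hx hb'
    rcases h with h | h | h | h | h | h
    · left
      rw [lt_div_iff₀ hb', div_le_iff₀ hb'] at h
      constructor <;> linarith [h.1, h.2]
    · right; left
      rw [lt_div_iff₀ hb', div_le_iff₀ hb'] at h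
      constructor <;> linarith [h.1, h.2]
    · right; right
      rw [lt_div_iff₀ hb', div_le_iff₀ hb'] at h
      constructor <;> linarith [h.1, h.2]
    · linarith [h.2]
    · linarith [h.2]
    · linarith [h.2]

lemma dOm_inner {b x : ℝ} (hb : b ≠ 0)
    (h : (5 * |b| < x ∧ x < 7 * |b|) ∨ (15 * |b| < x ∧ x < 40 * |b|) ∨
      (112 * |b| < x ∧ x < 120 * |b|)) : x ∈ dOm b := by
  rw [mem_dOm hb, mem_Om]
  rcases lt_or_gt_of_ne hb with hb' | hb'
  · rw [abs_of_neg hb'] at h
    right; right; right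
    rcases h with h | h | h
    · left
      rw [lt_div_iff_of_neg hb', div_le_iff_of_neg hb']
      constructor <;> linarith [h.1, h.2]
    · right; left
      rw [lt_div_iff_of_neg hb', div_le_iff_of_neg hb']
      constructor <;> linarith [h.1, h.2]
    · right; right
      rw [lt_div_iff_of_neg hb', div_le_iff_of_neg hb']
      constructor <;> linarith [h.1, h.2]
  · rw [abs_of_pos hb'] at h
    rcases h with h | h | h
    · left
      rw [lt_div_iff₀ hb', div_le_iff₀ hb']
      constructor <;> linarith [h.1, h.2]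
    · right; left
      rw [lt_div_iff₀ hb', div_le_iff₀ hb']
      constructor <;> linarith [h.1, h.2]
    · right; right; left
      rw [lt_div_iff₀ hb', div_le_iff₀ hb']
      constructor <;> linarith [h.1, h.2]

theorem no_tile {I : Type} (b : I → ℝ) (hb : ∀ i, b i ≠ 0) :
    ¬ ∀ᵐ ξ : ℝ, ∑' i, (dOm (b i)).indicator (fun _ => (1 : ℝ≥0∞)) ξ = 1 := by
  intro h
  -- every interval has a good point
  have hgood : ∀ u v : ℝ, u < v → ∃ ξ ∈ Ioo u v,
      ∑' i, (dOm (b i)).indicator (fun _ => (1 : ℝ≥0∞)) ξ = 1 := by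
    intro u v huv
    by_contra hcon
    push Not at hcon
    have h1 : volume (Ioo u v) = 0 := by
      apply measure_mono_null _ (ae_iff.1 h)
      intro ξ hξ
      exact hcon ξ hξ
    rw [Real.volume_Ioo, ENNReal.ofReal_eq_zero] at h1
    linarith
  have hover : ∀ i j, i ≠ j → ∀ u v : ℝ, u < v → (∀ x, u < x → x < v → x ∈ dOm (b i)) →
      (∀ x, u < x → x < v → x ∈ dOm (b j)) → False := by
    intro i j hij u v huv h1 h2
    obtain ⟨ξ, hξ, hsum⟩ := hgood u v huv
    classical
    have h3 := ENNReal.sum_le_tsum (f := fun i => (dOm (b i)).indicator (fun _ => (1 : ℝ≥0∞)) ξ)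
      {i, j}
    rw [hsum, Finset.sum_pair hij, indicator_of_mem (h1 ξ hξ.1 hξ.2),
      indicator_of_mem (h2 ξ hξ.1 hξ.2)] at h3
    norm_num at h3
  have hcov : ∀ u v : ℝ, u < v → ∃ ξ ∈ Ioo u v, ∃ i, ξ ∈ dOm (b i) := by
    intro u v huv
    obtain ⟨ξ, hξ, hsum⟩ := hgood u v huv
    refine ⟨ξ, hξ, ?_⟩
    by_contra hcon
    push Not at hcon
    have : ∑' i, (dOm (b i)).indicator (fun _ => (1 : ℝ≥0∞)) ξ = 0 := by
      rw [ENNReal.tsum_eq_zero]
      intro i
      exact indicator_of_notMem (hcon i) _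
    rw [this] at hsum
    exact zero_ne_one hsum
  obtain ⟨-, -, i₀, -⟩ := hcov 0 1 one_pos
  obtain ⟨a, ha⟩ : ∃ a, a = |b i₀| := ⟨_, rfl⟩
  have ha0 : 0 < a := by rw [ha]; exact abs_pos.2 (hb i₀)
  -- the key fact
  have key : ∀ x, 7 * a < x → x < 8 * a → ∀ i, x ∈ dOm (b i) →
      7 * a ≤ 112 * |b i| ∧ 112 * |b i| ≤ x ∧ x ≤ 120 * |b i| := by
    intro x hx1 hx2 i hi
    have hx0 : 0 < x := by linarith
    have hne : i₀ ≠ i := by
      rintro rfl
      have := dOm_cover (hb i₀) hx0 hi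
      rw [← ha] at this
      rcases this with h | h | h <;> linarith [h.1, h.2]
    obtain ⟨r, hr⟩ : ∃ r, r = |b i| := ⟨_, rfl⟩
    have hr0 : 0 < r := by rw [hr]; exact abs_pos.2 (hb i)
    have hin0 : ∀ x, (5 * a < x ∧ x < 7 * a) ∨ (15 * a < x ∧ x < 40 * a) ∨
        (112 * a < x ∧ x < 120 * a) → x ∈ dOm (b i₀) := by
      intro x hx
      rw [ha] at hx
      exact dOm_inner (hb i₀) hx
    have hin1 : ∀ x, (5 * r < x ∧ x < 7 * r) ∨ (15 * r < x ∧ x < 40 * r) ∨
        (112 * r < x ∧ x < 120 * r) → x ∈ dOm (b i) := by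
      intro x hx
      rw [hr] at hx
      exact dOm_inner (hb i) hx
    have hc := dOm_cover (hb i) hx0 hi
    rw [← hr] at hc ⊢
    rcases hc with hc | hc | hc
    · exfalso
      apply hover i₀ i hne (15 * r) (40 * a) (by linarith [hc.1, hc.2])
      · intro y hy1 hy2
        exact hin0 y (Or.inr (Or.inl ⟨by linarith [hc.2], hy2⟩))
      · intro y hy1 hy2
        exact hin1 y (Or.inr (Or.inl ⟨hy1, by linarith [hc.2]⟩))
    · exfalso
      by_cases h7 : 15 * r < 7 * a
      · apply hover i₀ i hne (max (5 * a) (15 * r)) (7 * a) (max_lt (by linarith) h7)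
        · intro y hy1 hy2
          exact hin0 y (Or.inl ⟨(le_max_left _ _).trans_lt hy1, hy2⟩)
        · intro y hy1 hy2
          exact hin1 y (Or.inr (Or.inl ⟨(le_max_right _ _).trans_lt hy1, by linarith [hc.2]⟩))
      · push Not at h7
        apply hover i₀ i hne (15 * a) (min (40 * a) (40 * r)) (lt_min (by linarith) (by linarith))
        · intro y hy1 hy2
          exact hin0 y (Or.inr (Or.inl ⟨hy1, hy2.trans_le (min_le_left _ _)⟩))
        · intro y hy1 hy2
          exact hin1 y (Or.inr (Or.inl ⟨by linarith [hc.1], hy2.trans_le (min_le_right _ _)⟩))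
    · refine ⟨?_, hc.1, hc.2⟩
      by_contra h7
      push Not at h7
      apply hover i₀ i hne (max (5 * a) (112 * r)) (7 * a) (max_lt (by linarith) h7)
      · intro y hy1 hy2
        exact hin0 y (Or.inl ⟨(le_max_left _ _).trans_lt hy1, hy2⟩)
      · intro y hy1 hy2
        exact hin1 y (Or.inr (Or.inr ⟨(le_max_right _ _).trans_lt hy1, by linarith [hc.2]⟩))
  obtain ⟨x₁, hx₁, i₁, hi₁⟩ := hcov (7 * a) (71 / 10 * a) (by linarith)
  obtain ⟨x₂, hx₂, i₂, hi₂⟩ := hcov (79 / 10 * a) (8 * a) (by linarith)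
  have k1 := key x₁ hx₁.1 (by linarith [hx₁.2]) i₁ hi₁
  have k2 := key x₂ (by linarith [hx₂.1]) hx₂.2 i₂ hi₂
  have hne : i₁ ≠ i₂ := by
    rintro rfl
    linarith [k1.2.1, k2.2.2, hx₁.2, hx₂.1]
  apply hover i₁ i₂ hne (15 / 14 * a) (40 / 16 * a) (by linarith)
  · intro y hy1 hy2
    apply dOm_inner (hb i₁)
    right; left
    constructor <;> linarith [k1.1, k1.2.1, hx₁.2]
  · intro y hy1 hy2
    apply dOm_inner (hb i₂)
    right; left
    constructor <;> linarith [k2.1, k2.2.1, hx₂.2]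

end Pool.Agent.Lib.MP_b00f94_an
end

section

/-!
# MP_b00f94_an : the orthogonal basis on the frequency side
-/

namespace Pool.Agent.Lib.MP_b00f94_an

open MeasureTheory Set
open scoped ENNReal

/-- the character `e(t) = exp (2πit)` -/
noncomputable def ee (t : ℝ) : ℂ := Complex.exp ((2 * Real.pi * t : ℝ) * Complex.I)

lemma ee_continuous : Continuous ee := by
  unfold ee
  fun_prop

lemma norm_ee (t : ℝ) : ‖ee t‖ = 1 := Complex.norm_exp_ofReal_mul_I _

lemma ee_zero : ee 0 = 1 := by simp [ee]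

lemma ee_add (s t : ℝ) : ee (s + t) = ee s * ee t := by
  unfold ee
  rw [← Complex.exp_add]
  congr 1
  push_cast
  ring

lemma ee_int (n : ℤ) : ee n = 1 := by
  unfold ee
  rw [Complex.exp_eq_one_iff]
  refine ⟨n, ?_⟩
  push_cast
  ring

lemma conj_ee (t : ℝ) : (starRingEnd ℂ) (ee t) = ee (-t) := by
  unfold ee
  rw [← Complex.exp_conj]
  congr 1
  rw [map_mul, Complex.conj_I, Complex.conj_ofReal]
  push_cast
  ring

lemma ee_half : ee (1 / 2) = -1 := by
  unfold ee
  have : ((2 * Real.pi * (1 / 2) : ℝ) : ℂ) * Complex.I = Real.pi * Complex.I := by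
    push_cast
    ring
  rw [this, Complex.exp_pi_mul_I]

lemma ee_half_add_int (n : ℤ) : ee (1 / 2 + n) = -1 := by
  rw [ee_add, ee_int, ee_half, mul_one]

/-- the translation parameter `(2m+1)/70` -/
noncomputable def tt (m : ℤ) : ℝ := (2 * m + 1) / 70

/-- the basis on the frequency side -/
noncomputable def HH (n m : ℤ) (η : ℝ) : ℂ :=
  ((Real.sqrt ((2 : ℝ) ^ n))⁻¹ : ℝ) * ee (-(tt m * (η / 2 ^ n))) *
    Om.indicator (fun _ => (1 : ℂ)) (η / 2 ^ n)

lemma indicator_re (S : Set ℝ) (x : ℝ) : (starRingEnd ℂ) (S.indicator (fun _ => (1 : ℂ)) x) =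
    S.indicator (fun _ => (1 : ℂ)) x := by
  by_cases h : x ∈ S
  · rw [indicator_of_mem h, map_one]
  · rw [indicator_of_notMem h, map_zero]

lemma integrable_indicator_ee {S : Set ℝ} (hS : MeasurableSet S) (hfin : volume S ≠ ⊤) (ν : ℝ) :
    Integrable fun ξ : ℝ => S.indicator (fun _ => (1 : ℂ)) ξ * ee (ν * ξ) := by
  have h1 : Integrable (S.indicator (fun _ => (1 : ℂ))) :=
    (integrable_indicator_iff hS).2 (integrableOn_const hfin)
  apply h1.mul_bdd (c := 1)
  · exact (ee_continuous.comp (by fun_prop : Continuous fun x : ℝ => ν * x)).aestronglyMeasurable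
  · exact Filter.Eventually.of_forall fun x => (norm_ee _).le

/-- cancellation between a set and its translate -/
lemma integral_pair {X : Set ℝ} (hX : MeasurableSet X) (hfin : volume X ≠ ⊤) {ν c : ℝ}
    (hc : ee (-(ν * c)) = -1) :
    ∫ ξ, (X.indicator (fun _ => (1 : ℂ)) ξ + X.indicator (fun _ => (1 : ℂ)) (ξ + c)) *
      ee (ν * ξ) = 0 := by
  have h1 := integrable_indicator_ee hX hfin ν
  have e2 : ∀ ξ : ℝ, X.indicator (fun _ => (1 : ℂ)) (ξ + c) * ee (ν * ξ) =
      -(X.indicator (fun _ => (1 : ℂ)) (ξ + c) * ee (ν * (ξ + c))) := by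
    intro ξ
    have : ee (ν * ξ) = ee (ν * (ξ + c)) * ee (-(ν * c)) := by
      rw [← ee_add]; congr 1; ring
    rw [this, hc]
    ring
  simp only [add_mul, e2]
  have h2 : Integrable (fun ξ : ℝ => -(X.indicator (fun _ => (1 : ℂ)) (ξ + c) *
      ee (ν * (ξ + c)))) := (h1.comp_add_right c).neg
  rw [integral_add h1 h2, integral_neg,
    integral_add_right_eq_self (fun ξ : ℝ => X.indicator (fun _ => (1 : ℂ)) ξ * ee (ν * ξ)) c]
  ring

lemma vol_Ioc_ne_top (a b : ℝ) : volume (Ioc a b) ≠ ⊤ := by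
  rw [Real.volume_Ioc]
  exact ENNReal.ofReal_ne_top

lemma two_pow_cases (j : ℕ) (hj : 3 ≤ j) : (2 : ℝ) ^ j = 8 ∨ (2 : ℝ) ^ j = 16 ∨ 32 ≤ (2 : ℝ) ^ j := by
  rcases Nat.lt_or_ge j 5 with h | h
  · interval_cases j
    · left; norm_num
    · right; left; norm_num
  · right; right
    calc (32 : ℝ) = 2 ^ 5 := by norm_num
      _ ≤ 2 ^ j := pow_le_pow_right₀ (by norm_num) h

/-- overlap of the set with its dyadic dilates -/
lemma overlap (j : ℕ) (hj : 1 ≤ j) : ∃ X : Set ℝ, MeasurableSet X ∧ volume X ≠ ⊤ ∧ ∀ ξ : ℝ,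
    Om.indicator (fun _ => (1 : ℂ)) (ξ / 2 ^ j) * Om.indicator (fun _ => (1 : ℂ)) ξ =
      X.indicator (fun _ => (1 : ℂ)) ξ + X.indicator (fun _ => (1 : ℂ)) (ξ + 35 * 2 ^ j) := by
  have gen : ∀ X : Set ℝ, (∀ ξ : ℝ, (ξ / 2 ^ j ∈ Om ∧ ξ ∈ Om) ↔ (ξ ∈ X ∨ ξ + 35 * 2 ^ j ∈ X)) →
      (∀ ξ : ℝ, ¬ (ξ ∈ X ∧ ξ + 35 * 2 ^ j ∈ X)) → ∀ ξ : ℝ,
      Om.indicator (fun _ => (1 : ℂ)) (ξ / 2 ^ j) * Om.indicator (fun _ => (1 : ℂ)) ξ =
      X.indicator (fun _ => (1 : ℂ)) ξ + X.indicator (fun _ => (1 : ℂ)) (ξ + 35 * 2 ^ j) := by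
    intro X h1 h2 ξ
    have h1' := h1 ξ
    have h2' := h2 ξ
    by_cases a1 : ξ / 2 ^ j ∈ Om <;> by_cases a2 : ξ ∈ Om <;> by_cases a3 : ξ ∈ X <;>
      by_cases a4 : ξ + 35 * 2 ^ j ∈ X <;> simp [a1, a2, a3, a4] at h1' h2' ⊢
  rcases Nat.lt_or_ge j 3 with h | h
  · rcases (by omega : j = 1 ∨ j = 2) with rfl | rfl
    · refine ⟨Ioc 30 40, measurableSet_Ioc, vol_Ioc_ne_top _ _, gen _ ?_ ?_⟩
      · intro ξ
        rw [mem_Om, mem_Om, mem_Ioc, mem_Ioc]
        norm_num
        constructor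
        · rintro ⟨h1, h2⟩
          rcases h1 with h1 | h1 | h1 | h1 | h1 | h1 <;> rcases h2 with h2 | h2 | h2 | h2 | h2 | h2 <;>
          first
          | (exfalso; linarith [h1.1, h1.2, h2.1, h2.2])
          | (left; constructor <;> linarith [h1.1, h1.2, h2.1, h2.2])
          | (right; constructor <;> linarith [h1.1, h1.2, h2.1, h2.2])
        · rintro (h1 | h1)
          · constructor
            · right; left; constructor <;> linarith [h1.1, h1.2]
            · right; left; constructor <;> linarith [h1.1, h1.2]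
          · constructor
            · right; right; right; right; left; constructor <;> linarith [h1.1, h1.2]
            · right; right; right; right; left; constructor <;> linarith [h1.1, h1.2]
      · rintro ξ ⟨h1, h2⟩
        rw [mem_Ioc] at h1 h2
        norm_num at h2
        linarith [h1.1, h2.2]
    · refine ⟨Ioc 20 28 ∪ Ioc 112 120, measurableSet_Ioc.union measurableSet_Ioc, ?_, gen _ ?_ ?_⟩
      · exact ((measure_union_lt_top (lt_top_iff_ne_top.2 (vol_Ioc_ne_top _ _))
          (lt_top_iff_ne_top.2 (vol_Ioc_ne_top _ _)))).ne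
      · intro ξ
        rw [mem_Om, mem_Om, mem_union, mem_union, mem_Ioc, mem_Ioc, mem_Ioc, mem_Ioc]
        norm_num
        constructor
        · rintro ⟨h1, h2⟩
          rcases h1 with h1 | h1 | h1 | h1 | h1 | h1 <;> rcases h2 with h2 | h2 | h2 | h2 | h2 | h2 <;>
          first
          | (exfalso; linarith [h1.1, h1.2, h2.1, h2.2])
          | (left; left; constructor <;> linarith [h1.1, h1.2, h2.1, h2.2])
          | (left; right; constructor <;> linarith [h1.1, h1.2, h2.1, h2.2])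
          | (right; left; constructor <;> linarith [h1.1, h1.2, h2.1, h2.2])
          | (right; right; constructor <;> linarith [h1.1, h1.2, h2.1, h2.2])
        · rintro ((h1 | h1) | (h1 | h1))
          · constructor
            · left; constructor <;> linarith [h1.1, h1.2]
            · right; left; constructor <;> linarith [h1.1, h1.2]
          · constructor
            · right; left; constructor <;> linarith [h1.1, h1.2]
            · right; right; left; constructor <;> linarith [h1.1, h1.2]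
          · constructor
            · right; right; right; right; left; constructor <;> linarith [h1.1, h1.2]
            · right; right; right; right; right; constructor <;> linarith [h1.1, h1.2]
          · constructor
            · right; right; right; left; constructor <;> linarith [h1.1, h1.2]
            · right; right; right; right; left; constructor <;> linarith [h1.1, h1.2]
      · rintro ξ ⟨h1, h2⟩
        rw [mem_union, mem_Ioc, mem_Ioc] at h1 h2
        norm_num at h2
        rcases h1 with h1 | h1 <;> rcases h2 with h2 | h2 <;> linarith [h1.1, h1.2, h2.1, h2.2]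
  · refine ⟨∅, MeasurableSet.empty, by simp, gen _ ?_ (by simp)⟩
    intro ξ
    simp only [mem_empty_iff_false, or_self, iff_false, not_and]
    intro h1 h2
    have hp : (0 : ℝ) < 2 ^ j := by positivity
    rw [mem_Om] at h1 h2
    simp only [lt_div_iff₀ hp, div_le_iff₀ hp] at h1
    rcases two_pow_cases j h with h3 | h3 | h3
    · rw [h3] at h1
      rcases h1 with h1 | h1 | h1 | h1 | h1 | h1 <;> rcases h2 with h2 | h2 | h2 | h2 | h2 | h2 <;>
        linarith [h1.1, h1.2, h2.1, h2.2]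
    · rw [h3] at h1
      rcases h1 with h1 | h1 | h1 | h1 | h1 | h1 <;> rcases h2 with h2 | h2 | h2 | h2 | h2 | h2 <;>
        linarith [h1.1, h1.2, h2.1, h2.2]
    · rcases h1 with h1 | h1 | h1 | h1 | h1 | h1 <;> rcases h2 with h2 | h2 | h2 | h2 | h2 | h2 <;>
        linarith [h1.1, h1.2, h2.1, h2.2]

lemma hasDerivAt_ee_mul (c x : ℝ) :
    HasDerivAt (fun x : ℝ => ee (c * x)) (2 * Real.pi * c * Complex.I * ee (c * x)) x := by
  unfold ee
  have h0 : HasDerivAt (fun x : ℝ => 2 * Real.pi * (c * x)) (2 * Real.pi * (c * 1)) x :=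
    ((hasDerivAt_id x).const_mul c).const_mul (2 * Real.pi)
  have h1 := (h0.ofReal_comp).mul_const Complex.I
  have h2 := h1.cexp
  have e1 : Complex.exp (((2 * Real.pi * (c * x) : ℝ) : ℂ) * Complex.I) *
      (((2 * Real.pi * (c * 1) : ℝ) : ℂ) * Complex.I) =
      2 * Real.pi * c * Complex.I * Complex.exp (((2 * Real.pi * (c * x) : ℝ) : ℂ) * Complex.I) := by
    push_cast
    ring
  rw [e1] at h2
  exact h2

lemma integral_Ioc_ee {a b c : ℝ} (hab : a ≤ b) (hc : c ≠ 0) :
    ∫ ξ : ℝ, (Ioc a b).indicator (fun _ => (1 : ℂ)) ξ * ee (c * ξ) =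
      (ee (c * b) - ee (c * a)) / (2 * Real.pi * c * Complex.I) := by
  have hne : (2 * Real.pi * c * Complex.I : ℂ) ≠ 0 := by
    have h1 : (Real.pi : ℂ) ≠ 0 := by exact_mod_cast Real.pi_ne_zero
    have h2 : (c : ℂ) ≠ 0 := by exact_mod_cast hc
    have h3 := Complex.I_ne_zero
    simp [h1, h2, h3]
  have e1 : (fun ξ : ℝ => (Ioc a b).indicator (fun _ => (1 : ℂ)) ξ * ee (c * ξ)) =
      (Ioc a b).indicator (fun ξ => ee (c * ξ)) := by
    funext ξ
    by_cases h : ξ ∈ Ioc a b
    · rw [indicator_of_mem h, indicator_of_mem h, one_mul]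
    · rw [indicator_of_notMem h, indicator_of_notMem h, zero_mul]
  rw [e1, integral_indicator measurableSet_Ioc, ← intervalIntegral.integral_of_le hab]
  have hd : ∀ x ∈ uIcc a b, HasDerivAt (fun x : ℝ => ee (c * x) / (2 * Real.pi * c * Complex.I))
      (ee (c * x)) x := by
    intro x _
    have := (hasDerivAt_ee_mul c x).div_const (2 * Real.pi * c * Complex.I : ℂ)
    rw [mul_div_cancel_left₀ _ hne] at this
    exact this
  rw [intervalIntegral.integral_eq_sub_of_hasDerivAt hd]
  · ring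
  · apply Continuous.intervalIntegrable
    exact ee_continuous.comp (by fun_prop)

lemma Om_indicator (ξ : ℝ) : Om.indicator (fun _ => (1 : ℂ)) ξ =
    (Ioc 5 7).indicator (fun _ => (1 : ℂ)) ξ + (Ioc 15 40).indicator (fun _ => (1 : ℂ)) ξ +
    (Ioc 112 120).indicator (fun _ => (1 : ℂ)) ξ + (Ioc (-7) (-5)).indicator (fun _ => (1 : ℂ)) ξ +
    (Ioc (-40) (-15)).indicator (fun _ => (1 : ℂ)) ξ +
    (Ioc (-120) (-112)).indicator (fun _ => (1 : ℂ)) ξ := by
  unfold Om
  rw [indicator_union_of_disjoint, indicator_union_of_disjoint, indicator_union_of_disjoint,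
    indicator_union_of_disjoint, indicator_union_of_disjoint]
  · rw [Set.disjoint_left]
    intro x hx hx'
    simp only [mem_Ioc] at hx hx'
    linarith [hx.1, hx.2, hx'.1, hx'.2]
  · rw [Set.disjoint_left]
    intro x hx hx'
    simp only [mem_union, mem_Ioc] at hx hx'
    rcases hx with hx | hx <;> linarith [hx.1, hx.2, hx'.1, hx'.2]
  · rw [Set.disjoint_left]
    intro x hx hx'
    simp only [mem_union, mem_Ioc] at hx hx'
    rcases hx with (hx | hx) | hx <;> linarith [hx.1, hx.2, hx'.1, hx'.2]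
  · rw [Set.disjoint_left]
    intro x hx hx'
    simp only [mem_union, mem_Ioc] at hx hx'
    rcases hx with ((hx | hx) | hx) | hx <;> linarith [hx.1, hx.2, hx'.1, hx'.2]
  · rw [Set.disjoint_left]
    intro x hx hx'
    simp only [mem_union, mem_Ioc] at hx hx'
    rcases hx with (((hx | hx) | hx) | hx) | hx <;> linarith [hx.1, hx.2, hx'.1, hx'.2]

lemma ee_shift {c : ℝ} {x y : ℝ} {n : ℤ} (h : c * x = c * y + n) : ee (c * x) = ee (c * y) := by
  rw [h, ee_add, ee_int, mul_one]

/-- same scale -/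
lemma integral_Om_ee {k : ℤ} (hk : k ≠ 0) :
    ∫ ξ : ℝ, Om.indicator (fun _ => (1 : ℂ)) ξ * ee ((k / 35 : ℝ) * ξ) = 0 := by
  obtain ⟨c, hc⟩ : ∃ c : ℝ, c = k / 35 := ⟨_, rfl⟩
  have hc0 : c ≠ 0 := by
    rw [hc]
    have : (k : ℝ) ≠ 0 := by exact_mod_cast hk
    positivity
  rw [← hc]
  have hi : ∀ a b : ℝ, Integrable fun ξ : ℝ => (Ioc a b).indicator (fun _ => (1 : ℂ)) ξ *
      ee (c * ξ) := fun a b => integrable_indicator_ee measurableSet_Ioc (vol_Ioc_ne_top a b) c
  simp only [Om_indicator, add_mul]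
  rw [integral_add, integral_add, integral_add, integral_add, integral_add,
    integral_Ioc_ee (by norm_num) hc0, integral_Ioc_ee (by norm_num) hc0,
    integral_Ioc_ee (by norm_num) hc0, integral_Ioc_ee (by norm_num) hc0,
    integral_Ioc_ee (by norm_num) hc0, integral_Ioc_ee (by norm_num) hc0]
  · have e1 : ee (c * 40) = ee (c * 5) := ee_shift (n := k) (by rw [hc]; ring)
    have e2 : ee (c * 120) = ee (c * 15) := ee_shift (n := 3 * k) (by rw [hc]; push_cast; ring)
    have e3 : ee (c * 112) = ee (c * 7) := ee_shift (n := 3 * k) (by rw [hc]; push_cast; ring)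
    have e4 : ee (c * (-40)) = ee (c * (-5)) := ee_shift (n := -k) (by rw [hc]; push_cast; ring)
    have e5 : ee (c * (-120)) = ee (c * (-15)) :=
      ee_shift (n := -3 * k) (by rw [hc]; push_cast; ring)
    have e6 : ee (c * (-112)) = ee (c * (-7)) :=
      ee_shift (n := -3 * k) (by rw [hc]; push_cast; ring)
    rw [e1, e2, e3, e4, e5, e6]
    ring
  · exact hi _ _
  · exact hi _ _
  · exact (hi _ _).add (hi _ _)
  · exact hi _ _
  · exact ((hi _ _).add (hi _ _)).add (hi _ _)
  · exact hi _ _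
  · exact (((hi _ _).add (hi _ _)).add (hi _ _)).add (hi _ _)
  · exact hi _ _
  · exact ((((hi _ _).add (hi _ _)).add (hi _ _)).add (hi _ _)).add (hi _ _)
  · exact hi _ _

end Pool.Agent.Lib.MP_b00f94_an
end
end

section

section

/-!
# MP_b00f94_an : orthogonality on the frequency side
-/

namespace Pool.Agent.Lib.MP_b00f94_an

open MeasureTheory Set
open scoped ENNReal

lemma scale_zero {g : ℝ → ℂ} {a : ℝ} (ha : a ≠ 0) (h : ∫ x, g (a * x) = 0) : ∫ x, g x = 0 := by
  rw [Measure.integral_comp_mul_left, smul_eq_zero] at h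
  rcases h with h | h
  · rw [abs_eq_zero, inv_eq_zero] at h
    exact absurd h ha
  · exact h

lemma scale_zero' {g : ℝ → ℂ} {a : ℝ} (h : ∫ x, g x = 0) : ∫ x, g (a * x) = 0 := by
  rw [Measure.integral_comp_mul_left, h, smul_zero]

lemma zpow_two_pos (n : ℤ) : (0 : ℝ) < 2 ^ n := by positivity

lemma HH_orth_same {n m m' : ℤ} (h : m ≠ m') :
    ∫ η, HH n m η * (starRingEnd ℂ) (HH n m' η) = 0 := by
  apply scale_zero (zpow_two_pos n).ne'
  have e1 : ∀ ξ : ℝ, HH n m (2 ^ n * ξ) * (starRingEnd ℂ) (HH n m' (2 ^ n * ξ)) =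
      ((((Real.sqrt ((2 : ℝ) ^ n))⁻¹ : ℝ) : ℂ) * (((Real.sqrt ((2 : ℝ) ^ n))⁻¹ : ℝ) : ℂ)) *
        (Om.indicator (fun _ => (1 : ℂ)) ξ * ee (((m' - m : ℤ) / 35 : ℝ) * ξ)) := by
    intro ξ
    unfold HH
    rw [mul_div_cancel_left₀ _ (zpow_two_pos n).ne', map_mul, map_mul, indicator_re, conj_ee,
      Complex.conj_ofReal, neg_neg]
    have e2 : ee (((m' - m : ℤ) / 35 : ℝ) * ξ) = ee (-(tt m * ξ)) * ee (tt m' * ξ) := by
      rw [← ee_add]
      congr 1
      unfold tt
      push_cast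
      ring
    rw [e2]
    have e3 : Om.indicator (fun _ => (1 : ℂ)) ξ * Om.indicator (fun _ => (1 : ℂ)) ξ =
        Om.indicator (fun _ => (1 : ℂ)) ξ := by
      by_cases hx : ξ ∈ Om
      · simp [hx]
      · simp [hx]
    linear_combination ((((Real.sqrt ((2 : ℝ) ^ n))⁻¹ : ℝ) : ℂ) *
      (((Real.sqrt ((2 : ℝ) ^ n))⁻¹ : ℝ) : ℂ)) * (ee (-(tt m * ξ)) * ee (tt m' * ξ)) * e3
  simp only [e1]
  rw [integral_const_mul, integral_Om_ee (by omega), mul_zero]

lemma HH_orth_lt {n m m' : ℤ} {j : ℕ} (hj : 1 ≤ j) :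
    ∫ η, HH (n + j) m η * (starRingEnd ℂ) (HH n m' η) = 0 := by
  apply scale_zero (zpow_two_pos n).ne'
  obtain ⟨X, hX, hfin, hXe⟩ := overlap j hj
  have e1 : ∀ ξ : ℝ, HH (n + j) m (2 ^ n * ξ) * (starRingEnd ℂ) (HH n m' (2 ^ n * ξ)) =
      ((((Real.sqrt ((2 : ℝ) ^ (n + j)))⁻¹ : ℝ) : ℂ) *
        (((Real.sqrt ((2 : ℝ) ^ n))⁻¹ : ℝ) : ℂ)) *
        ((X.indicator (fun _ => (1 : ℂ)) ξ + X.indicator (fun _ => (1 : ℂ)) (ξ + 35 * 2 ^ j)) *
          ee ((tt m' - tt m / 2 ^ j) * ξ)) := by
    intro ξ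
    unfold HH
    have e0 : (2 : ℝ) ^ n * ξ / 2 ^ (n + (j : ℤ)) = ξ / 2 ^ j := by
      rw [zpow_add₀ (by norm_num), zpow_natCast]
      have := (zpow_two_pos n).ne'
      field_simp
    rw [e0, mul_div_cancel_left₀ _ (zpow_two_pos n).ne', map_mul, map_mul, indicator_re, conj_ee,
      Complex.conj_ofReal, neg_neg, ← hXe]
    have e2 : ee ((tt m' - tt m / 2 ^ j) * ξ) = ee (-(tt m * (ξ / 2 ^ j))) * ee (tt m' * ξ) := by
      rw [← ee_add]
      congr 1
      ring
    rw [e2]
    ring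
  simp only [e1]
  rw [integral_const_mul, integral_pair hX hfin, mul_zero]
  obtain ⟨i, rfl⟩ : ∃ i, j = i + 1 := ⟨j - 1, by omega⟩
  have e3 : -((tt m' - tt m / 2 ^ (i + 1)) * (35 * 2 ^ (i + 1))) =
      1 / 2 + ((m - 2 ^ i * (2 * m' + 1) : ℤ) : ℝ) := by
    unfold tt
    have : (2 : ℝ) ^ (i + 1) = 2 * 2 ^ i := by rw [pow_succ]; ring
    have h2 : (2 : ℝ) ^ i ≠ 0 := by positivity
    rw [this]
    push_cast
    field_simp
    ring
  rw [e3, ee_half_add_int]

lemma conj_integral_zero {f g : ℝ → ℂ} (h : ∫ x, f x * (starRingEnd ℂ) (g x) = 0) :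
    ∫ x, g x * (starRingEnd ℂ) (f x) = 0 := by
  have h1 : (starRingEnd ℂ) (∫ x, f x * (starRingEnd ℂ) (g x)) = 0 := by rw [h, map_zero]
  rw [← integral_conj] at h1
  rw [← h1]
  congr 1
  funext x
  rw [map_mul, Complex.conj_conj]
  ring

theorem HH_orth {n m n' m' : ℤ} (h : ¬(n = n' ∧ m = m')) :
    ∫ η, HH n m η * (starRingEnd ℂ) (HH n' m' η) = 0 := by
  rcases lt_trichotomy n n' with hn | hn | hn
  · apply conj_integral_zero
    obtain ⟨j, hj⟩ : ∃ j : ℕ, n' = n + j := ⟨(n' - n).toNat, by omega⟩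
    subst hj
    exact HH_orth_lt (by omega)
  · subst hn
    exact HH_orth_same fun hm => h ⟨rfl, hm⟩
  · obtain ⟨j, hj⟩ : ∃ j : ℕ, n = n' + j := ⟨(n - n').toNat, by omega⟩
    subst hj
    exact HH_orth_lt (by omega)

lemma Om_bound {x : ℝ} (h : x ∈ Om) : |x| ≤ 120 := by
  rw [mem_Om] at h
  rw [abs_le]
  rcases h with h | h | h | h | h | h <;> constructor <;> linarith [h.1, h.2]

lemma volume_Om_lt_top : volume Om < ⊤ := by
  apply lt_of_le_of_lt (measure_mono (t := Icc (-120) 120) _)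
  · rw [Real.volume_Icc]; exact ENNReal.ofReal_lt_top
  · intro x hx
    exact abs_le.1 (Om_bound hx)

lemma volume_Om_pos : 0 < volume Om := by
  apply lt_of_lt_of_le _ (measure_mono (s := Ioc 5 7) _)
  · rw [Real.volume_Ioc, ENNReal.ofReal_pos]; norm_num
  · intro x hx
    rw [mem_Om]
    exact Or.inl hx

/-- the support of the basis functions -/
def SS (n : ℤ) : Set ℝ := (fun η : ℝ => η / 2 ^ n) ⁻¹' Om

lemma measurableSet_SS (n : ℤ) : MeasurableSet (SS n) :=
  measurableSet_Om.preimage (by fun_prop)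

lemma volume_SS_lt_top (n : ℤ) : volume (SS n) < ⊤ := by
  apply lt_of_le_of_lt (measure_mono (t := Icc (-120 * 2 ^ n) (120 * 2 ^ n)) _)
  · rw [Real.volume_Icc]; exact ENNReal.ofReal_lt_top
  · intro x hx
    have h1 := abs_le.1 (Om_bound hx)
    rw [le_div_iff₀ (zpow_two_pos n), div_le_iff₀ (zpow_two_pos n)] at h1
    exact h1

lemma HH_eq (n m : ℤ) (η : ℝ) : HH n m η = (SS n).indicator (fun η =>
    (((Real.sqrt ((2 : ℝ) ^ n))⁻¹ : ℝ) : ℂ) * ee (-(tt m * (η / 2 ^ n)))) η := by
  unfold HH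
  by_cases h : η ∈ SS n
  · have h' : η / 2 ^ n ∈ Om := h
    rw [indicator_of_mem h, indicator_of_mem h', mul_one]
  · have h' : η / 2 ^ n ∉ Om := h
    rw [indicator_of_notMem h, indicator_of_notMem h', mul_zero]

lemma HH_memLp (n m : ℤ) (p : ℝ≥0∞) : MemLp (HH n m) p volume := by
  have h0 : HH n m = (SS n).indicator (fun η =>
    (((Real.sqrt ((2 : ℝ) ^ n))⁻¹ : ℝ) : ℂ) * ee (-(tt m * (η / 2 ^ n)))) := funext (HH_eq n m)
  have h1 : MemLp ((SS n).indicator (fun _ => (((Real.sqrt ((2 : ℝ) ^ n))⁻¹ : ℝ) : ℂ))) p volume :=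
    memLp_indicator_const p (measurableSet_SS n) _ (Or.inr (volume_SS_lt_top n).ne)
  apply h1.of_le
  · rw [h0]
    apply AEStronglyMeasurable.indicator _ (measurableSet_SS n)
    apply Continuous.aestronglyMeasurable
    exact continuous_const.mul (ee_continuous.comp (by fun_prop))
  · apply Filter.Eventually.of_forall
    intro η
    rw [HH_eq]
    by_cases h : η ∈ SS n
    · rw [indicator_of_mem h, indicator_of_mem h, norm_mul, norm_ee, mul_one]
    · rw [indicator_of_notMem h, indicator_of_notMem h]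

lemma HH_integrable (n m : ℤ) : Integrable (HH n m) := memLp_one_iff_integrable.1 (HH_memLp n m 1)

lemma HH_norm_pos (n m : ℤ) : 0 < ∫ η, ‖HH n m η‖ ^ 2 := by
  have e1 : ∀ η, ‖HH n m η‖ ^ 2 = (SS n).indicator (fun _ => ((2 : ℝ) ^ n)⁻¹) η := by
    intro η
    rw [HH_eq]
    by_cases h : η ∈ SS n
    · rw [indicator_of_mem h, indicator_of_mem h, norm_mul, norm_ee, mul_one, Complex.norm_real,
        Real.norm_eq_abs, sq_abs, inv_pow, Real.sq_sqrt (zpow_two_pos n).le]
    · rw [indicator_of_notMem h, indicator_of_notMem h]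
      simp
  simp only [e1]
  rw [integral_indicator (measurableSet_SS n), setIntegral_const, smul_eq_mul]
  apply mul_pos _ (inv_pos.2 (zpow_two_pos n))
  apply ENNReal.toReal_pos _ (volume_SS_lt_top n).ne
  apply ne_of_gt
  apply lt_of_lt_of_le _ (measure_mono (s := Ioc (5 * 2 ^ n) (7 * 2 ^ n)) _)
  · rw [Real.volume_Ioc, ENNReal.ofReal_pos]
    have := zpow_two_pos n
    linarith
  · intro x hx
    have : x / 2 ^ n ∈ Om := by
      rw [mem_Om]
      left
      rw [lt_div_iff₀ (zpow_two_pos n), div_le_iff₀ (zpow_two_pos n)]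
      exact hx
    exact this

end Pool.Agent.Lib.MP_b00f94_an
end

section

/-!
# MP_b00f94_an : inverse Fourier transform of functions in `L¹ ∩ L²`
-/

namespace Pool.Agent.Lib.MP_b00f94_an

open MeasureTheory Set FourierTransform SchwartzMap
open scoped ENNReal ContDiff

lemma integrable_ee_mul {h : ℝ → ℂ} (h1 : Integrable h) (x : ℝ) :
    Integrable fun y => ee (x * y) * h y := by
  apply h1.bdd_mul (c := 1)
  · exact (ee_continuous.comp (by fun_prop : Continuous fun y : ℝ => x * y)).aestronglyMeasurable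
  · exact Filter.Eventually.of_forall fun y => (norm_ee _).le

lemma continuous_inv {h : ℝ → ℂ} (h1 : Integrable h) :
    Continuous fun x => ∫ y, ee (x * y) * h y := by
  apply continuous_of_dominated (bound := fun y => ‖h y‖)
  · intro x
    exact (integrable_ee_mul h1 x).1
  · intro x
    apply Filter.Eventually.of_forall
    intro y
    rw [norm_mul, norm_ee, one_mul]
  · exact h1.norm
  · apply Filter.Eventually.of_forall
    intro y
    exact (ee_continuous.comp (by fun_prop)).mul continuous_const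

lemma fourierInv_schwartz (G : 𝓢(ℝ, ℂ)) (y : ℝ) : (𝓕⁻ G) y = ∫ x, ee (x * y) * G x := by
  have h1 : (𝓕⁻ G) y = 𝓕⁻ (G : ℝ → ℂ) y := by rw [SchwartzMap.fourierInv_coe]
  rw [h1, Real.fourierInv_eq']
  congr 1
  funext x
  rw [smul_eq_mul]
  unfold ee
  congr 2
  simp only [RCLike.inner_apply, conj_trivial]
  push_cast
  ring

theorem fourierInv_toLp {h : ℝ → ℂ} (h1 : Integrable h) (h2 : MemLp h 2 volume) :
    ((𝓕⁻ (h2.toLp h) : Lp ℂ 2 (volume : Measure ℝ)) : ℝ → ℂ) =ᵐ[volume]
      fun x => ∫ y, ee (x * y) * h y := by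
  apply ae_eq_of_integral_contDiff_smul_eq
  · exact (Lp.memLp _).locallyIntegrable (by norm_num)
  · exact (continuous_inv h1).locallyIntegrable
  · intro g hg hgc
    have hgc' : HasCompactSupport (fun x => (g x : ℂ)) := hgc.comp_left Complex.ofReal_zero
    have hg' : ContDiff ℝ ∞ (fun x => (g x : ℂ)) := Complex.ofRealCLM.contDiff.comp hg
    let G : 𝓢(ℝ, ℂ) := hgc'.toSchwartzMap hg'
    have hG : ∀ x, G x = (g x : ℂ) := fun x => rfl
    have key := congrArg (fun T : TemperedDistribution ℝ ℂ => T G)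
      (Lp.fourierInv_toTemperedDistribution_eq (h2.toLp h))
    simp only [TemperedDistribution.fourierInv_apply, Lp.toTemperedDistribution_apply] at key
    have e1 : ∫ x, g x • ((𝓕⁻ (h2.toLp h) : Lp ℂ 2 (volume : Measure ℝ)) : ℝ → ℂ) x =
        ∫ x, G x • ((𝓕⁻ (h2.toLp h) : Lp ℂ 2 (volume : Measure ℝ)) : ℝ → ℂ) x := by
      congr 1
    rw [e1, ← key]
    have e2 : ∫ x, (𝓕⁻ G) x • (h2.toLp h : ℝ → ℂ) x = ∫ x, (∫ z, ee (z * x) * G z) * h x := by
      apply integral_congr_ae
      filter_upwards [h2.coeFn_toLp] with x hx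
      rw [hx, smul_eq_mul, fourierInv_schwartz]
    rw [e2]
    have hGi : Integrable (fun z => (g z : ℂ)) :=
      (hg'.continuous).integrable_of_hasCompactSupport hgc'
    have e3 : ∀ x : ℝ, (∫ z, ee (z * x) * G z) * h x = ∫ z, ee (z * x) * G z * h x := by
      intro x
      rw [integral_mul_const]
    simp only [e3]
    rw [integral_integral_swap]
    · congr 1
      funext z
      rw [Complex.real_smul, ← integral_const_mul]
      congr 1
      funext x
      rw [hG]
      ring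
    · have h3 : Integrable (fun p : ℝ × ℝ => h p.1 * (g p.2 : ℂ)) (volume.prod volume) :=
        h1.mul_prod hGi
      have h4 : Integrable (fun p : ℝ × ℝ => ee (p.2 * p.1) * (h p.1 * (g p.2 : ℂ)))
          (volume.prod volume) := by
        apply h3.bdd_mul (c := 1)
        · exact (ee_continuous.comp (by fun_prop : Continuous fun p : ℝ × ℝ =>
            p.2 * p.1)).aestronglyMeasurable
        · exact Filter.Eventually.of_forall fun y => (norm_ee _).le
      have e4 : Function.uncurry (fun x z => ee (z * x) * G z * h x) =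
          fun p : ℝ × ℝ => ee (p.2 * p.1) * (h p.1 * (g p.2 : ℂ)) := by
        funext p
        simp only [Function.uncurry, hG]
        ring
      rw [e4]
      exact h4

/-- transfer of an orthogonal basis from the frequency side to the time side -/
theorem isOrthBasis_of_freq {ι : Type} {H f : ι → ℝ → ℂ} (h1 : ∀ i, Integrable (H i))
    (hf : ∀ i x, f i x = ∫ y, ee (x * y) * H i y) (hH : IsOrthBasis H) : IsOrthBasis f := by
  obtain ⟨a1, a2, a3, a4⟩ := hH
  have hae : ∀ i, ((𝓕⁻ ((a1 i).toLp (H i)) : Lp ℂ 2 (volume : Measure ℝ)) : ℝ → ℂ) =ᵐ[volume]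
      f i := by
    intro i
    have := fourierInv_toLp (h1 i) (a1 i)
    have e : f i = fun x => ∫ y, ee (x * y) * H i y := funext (hf i)
    rw [e]
    exact this
  have hmem : ∀ i, MemLp (f i) 2 volume := fun i => (memLp_congr_ae (hae i)).1 (Lp.memLp _)
  have htoLp : ∀ i, (hmem i).toLp (f i) = 𝓕⁻ ((a1 i).toLp (H i)) := by
    intro i
    apply Lp.ext
    exact ((hmem i).coeFn_toLp).trans (hae i).symm
  have hinner : ∀ (u v : ℝ → ℂ) (hu : MemLp u 2 volume) (hv : MemLp v 2 volume),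
      inner ℂ (hv.toLp v) (hu.toLp u) = ∫ x, u x * (starRingEnd ℂ) (v x) := by
    intro u v hu hv
    rw [MeasureTheory.L2.inner_def]
    apply integral_congr_ae
    filter_upwards [hu.coeFn_toLp, hv.coeFn_toLp] with x hx1 hx2
    rw [hx1, hx2, RCLike.inner_apply]
  have hinv : ∀ u v : Lp ℂ 2 (volume : Measure ℝ), inner ℂ (𝓕⁻ u) (𝓕⁻ v) = inner ℂ u v := by
    intro u v
    exact (Lp.fourierTransformₗᵢ ℝ ℂ).symm.inner_map_map u v
  have hpair : ∀ i j, ∫ x, f i x * (starRingEnd ℂ) (f j x) =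
      ∫ x, H i x * (starRingEnd ℂ) (H j x) := by
    intro i j
    rw [← hinner _ _ (hmem i) (hmem j), ← hinner _ _ (a1 i) (a1 j), htoLp, htoLp, hinv]
  refine ⟨hmem, ?_, ?_, ?_⟩
  · intro i
    have key : ∀ u : ℝ → ℂ, ∫ x, u x * (starRingEnd ℂ) (u x) = ((∫ x, ‖u x‖ ^ 2 : ℝ) : ℂ) := by
      intro u
      have e1 : (fun x => u x * (starRingEnd ℂ) (u x)) = fun x => ((‖u x‖ ^ 2 : ℝ) : ℂ) := by
        funext x
        rw [Complex.mul_conj, Complex.normSq_eq_norm_sq]
      rw [e1]
      exact integral_ofReal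
    have h3 := hpair i i
    rw [key, key] at h3
    have h4 : ∫ x, ‖f i x‖ ^ 2 = ∫ x, ‖H i x‖ ^ 2 := by exact_mod_cast h3
    rw [h4]
    exact a2 i
  · intro i j hij
    rw [hpair]
    exact a3 i j hij
  · intro g hg hgi
    have h3 : 𝓕 (hg.toLp g) = 0 := by
      have h4 : MemLp ((𝓕 (hg.toLp g) : Lp ℂ 2 (volume : Measure ℝ)) : ℝ → ℂ) 2 volume :=
        Lp.memLp _
      have h5 := a4 _ h4 (by
        intro i
        rw [← hinner _ _ h4 (a1 i)]
        have h6 : h4.toLp _ = 𝓕 (hg.toLp g) := Lp.toLp_coeFn _ _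
        rw [h6, ← hinv]
        have h7 : 𝓕⁻ (𝓕 (hg.toLp g)) = hg.toLp g := FourierPair.fourierInv_fourier_eq _
        rw [h7, ← htoLp, hinner _ _ hg (hmem i)]
        exact hgi i)
      apply Lp.ext
      filter_upwards [h5, Lp.coeFn_zero ℂ 2 (volume : Measure ℝ)] with x hx1 hx2
      rw [hx1, hx2]
    have h8 : hg.toLp g = 0 := by
      have h7 : 𝓕⁻ (𝓕 (hg.toLp g)) = hg.toLp g := FourierPair.fourierInv_fourier_eq _
      rw [← h7, h3]
      exact (Lp.fourierTransformₗᵢ ℝ ℂ).symm.map_zero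
    exact (MemLp.toLp_eq_toLp_iff hg MemLp.zero).1 (by rw [h8]; exact (MemLp.toLp_zero _).symm)

end Pool.Agent.Lib.MP_b00f94_an
end

section

/-!
# MP_b00f94_an : completeness on the frequency side
-/

namespace Pool.Agent.Lib.MP_b00f94_an

open MeasureTheory Set
open scoped ENNReal

lemma ee_neg_fourier (m : ℤ) (x : ℝ) :
    fourier (-m) (x : AddCircle ((35 : ℝ) - 0)) = ee (-(m * x / 35)) := by
  rw [fourier_coe_apply]
  unfold ee
  congr 1
  push_cast
  ring

/-- uniqueness of Fourier coefficients on `(0, 35]` -/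
lemma ae_zero_of_coeff {P : ℝ → ℂ} (hP : MemLp P 2 (volume.restrict (Ioc (0 : ℝ) 35)))
    (h : ∀ m : ℤ, ∫ x in (0 : ℝ)..35, ee (m * x / 35) * P x = 0) :
    ∀ᵐ x ∂(volume.restrict (Ioc (0 : ℝ) 35)), P x = 0 := by
  have h35 : (0 : ℝ) < 35 := by norm_num
  have hz : ∀ m : ℤ, fourierCoeffOn h35 P m = 0 := by
    intro m
    rw [fourierCoeffOn_eq_integral]
    have e1 : ∫ x in (0 : ℝ)..35, fourier (-m) (x : AddCircle ((35 : ℝ) - 0)) • P x = 0 := by
      rw [← h (-m)]
      apply intervalIntegral.integral_congr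
      intro x _
      simp only [smul_eq_mul]
      rw [ee_neg_fourier]
      congr 2
      push_cast
      ring
    rw [e1, smul_zero]
  have h1 := hasSum_sq_fourierCoeffOn h35 hP
  simp only [hz, norm_zero, ne_eq, OfNat.ofNat_ne_zero, not_false_eq_true, zero_pow] at h1
  have h2 := h1.unique hasSum_zero
  have h3 : ∫ x in (0 : ℝ)..35, ‖P x‖ ^ 2 = 0 := by
    rw [smul_eq_mul, mul_eq_zero] at h2
    rcases h2 with h2 | h2
    · norm_num at h2
    · exact h2
  rw [intervalIntegral.integral_of_le h35.le] at h3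
  have h4 : Integrable (fun x => ‖P x‖ ^ 2) (volume.restrict (Ioc (0 : ℝ) 35)) := by
    have := hP.integrable_norm_pow (by norm_num)
    simpa using this
  rw [integral_eq_zero_iff_of_nonneg (fun x => by positivity) h4] at h3
  filter_upwards [h3] with x hx
  have : ‖P x‖ ^ 2 = 0 := hx
  rw [sq_eq_zero_iff, norm_eq_zero] at this
  exact this

lemma ee_half_odd_mul (m r : ℤ) : ee ((2 * m + 1) * r / 2) = (-1) ^ r := by
  have key : ∀ r : ℤ, ee ((2 * m + 1) * (r + 1 : ℤ) / 2) = -ee ((2 * m + 1) * r / 2) := by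
    intro r
    have : ((2 * m + 1) * (r + 1 : ℤ) / 2 : ℝ) = (2 * m + 1) * r / 2 + (1 / 2 + (m : ℤ)) := by
      push_cast
      ring
    rw [this, ee_add, ee_half_add_int]
    ring
  induction r using Int.induction_on with
  | zero => simp [ee_zero]
  | succ r ih =>
    rw [key, ih, zpow_add₀ (by norm_num)]
    ring
  | pred r ih =>
    have h1 := key (-(r : ℤ) - 1)
    have e1 : (-(r : ℤ) - 1 + 1) = -(r : ℤ) := by ring
    rw [e1, ih] at h1
    rw [zpow_sub₀ (by norm_num), h1]
    ring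

theorem fold {F : ℝ → ℂ} (hF : MemLp F 2 volume) (hint : Integrable F)
    (hsupp : ∀ x, x ∉ Ioc (-140 : ℝ) 140 → F x = 0)
    (h : ∀ m : ℤ, ∫ ξ, F ξ * ee (tt m * ξ) = 0) :
    ∀ᵐ x ∂(volume.restrict (Ioc (0 : ℝ) 35)),
      ∑ k ∈ Finset.range 8, (-1 : ℂ) ^ k * F (x + 35 * (k - 4)) = 0 := by
  let P : ℝ → ℂ := fun x => (∑ k ∈ Finset.range 8, (-1 : ℂ) ^ k * F (x + 35 * (k - 4))) *
    ee (x / 70)
  have hshift : ∀ k : ℕ, MemLp (fun x => (-1 : ℂ) ^ k * F (x + 35 * (k - 4))) 2 volume := by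
    intro k
    apply MemLp.const_mul
    exact hF.comp_measurePreserving (measurePreserving_add_right volume (35 * ((k : ℝ) - 4)))
  have hP0 : MemLp (fun x => ∑ k ∈ Finset.range 8, (-1 : ℂ) ^ k * F (x + 35 * (k - 4))) 2 volume :=
    memLp_finsetSum _ fun k _ => hshift k
  have hP : MemLp P 2 (volume.restrict (Ioc (0 : ℝ) 35)) := by
    apply MemLp.restrict
    apply hP0.of_le
    · exact hP0.1.mul (ee_continuous.comp (by fun_prop : Continuous fun x : ℝ =>
        x / 70)).aestronglyMeasurable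
    · apply Filter.Eventually.of_forall
      intro x
      simp only [P]
      rw [norm_mul, norm_ee, mul_one]
  have hcoef : ∀ m : ℤ, ∫ x in (0 : ℝ)..35, ee (m * x / 35) * P x = 0 := by
    intro m
    let Φ : ℝ → ℂ := fun ξ => F ξ * ee (tt m * ξ)
    have hΦ : Integrable Φ := by
      apply hint.mul_bdd (c := 1)
      · exact (ee_continuous.comp (by fun_prop : Continuous fun x : ℝ =>
          tt m * x)).aestronglyMeasurable
      · exact Filter.Eventually.of_forall fun x => (norm_ee _).le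
    have e1 : ∀ x : ℝ, ee (m * x / 35) * P x =
        ∑ k ∈ Finset.range 8, Φ (x + 35 * (k - 4)) := by
      intro x
      simp only [P, Φ]
      rw [Finset.sum_mul, Finset.mul_sum]
      refine Finset.sum_congr rfl fun k _ => ?_
      have e2 : ee (tt m * (x + 35 * (k - 4))) = ee (m * x / 35) * ee (x / 70) * (-1) ^ k := by
        have h3 : tt m * (x + 35 * (k - 4)) =
            (m * x / 35 + x / 70) + (2 * m + 1) * (((k : ℤ) - 4 : ℤ) : ℝ) / 2 := by
          unfold tt
          push_cast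
          ring
        have h4 : ((-1 : ℂ)) ^ ((k : ℤ) - 4) = (-1) ^ k := by
          rw [zpow_sub₀ (by norm_num), zpow_natCast]
          norm_num
        rw [h3, ee_add, ee_add, ee_half_odd_mul, h4]
      rw [e2]
      ring
    simp only [e1]
    rw [intervalIntegral.integral_finsetSum]
    · have e3 : ∀ k ∈ Finset.range 8, ∫ x in (0 : ℝ)..35, Φ (x + 35 * (k - 4)) =
          ∫ x in (35 * ((k : ℝ) - 4))..(35 * (((k + 1 : ℕ) : ℝ) - 4)), Φ x := by
        intro k _
        rw [intervalIntegral.integral_comp_add_right]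
        congr 1
        · ring
        · push_cast; ring
      rw [Finset.sum_congr rfl e3]
      rw [intervalIntegral.sum_integral_adjacent_intervals (a := fun k : ℕ => 35 * ((k : ℝ) - 4))
        (fun k _ => hΦ.intervalIntegrable)]
      have e4 : ∫ x in (35 * (((0 : ℕ) : ℝ) - 4))..(35 * (((8 : ℕ) : ℝ) - 4)), Φ x = ∫ x, Φ x := by
        apply intervalIntegral.integral_eq_integral_of_support_subset
        intro x hx
        by_contra hcon
        apply hx
        simp only [Φ]
        rw [hsupp x, zero_mul]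
        intro hx2
        apply hcon
        norm_num at hx2 ⊢
        exact hx2
      rw [e4]
      exact h m
    · intro k _
      exact (hΦ.comp_add_right _).intervalIntegrable
  filter_upwards [ae_zero_of_coeff hP hcoef] with x hx
  simp only [P] at hx
  rcases mul_eq_zero.1 hx with h1 | h1
  · exact h1
  · exfalso
    have := norm_ee (x / 70)
    rw [h1, norm_zero] at this
    exact zero_ne_one this


lemma sum8 (F : ℝ → ℂ) (x : ℝ) : ∑ k ∈ Finset.range 8, (-1 : ℂ) ^ k * F (x + 35 * ((k : ℝ) - 4)) =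
    F (x - 140) - F (x - 105) + F (x - 70) - F (x - 35) + F x - F (x + 35) + F (x + 70) -
      F (x + 105) := by
  have e0 : x + 35 * (((0 : ℕ) : ℝ) - 4) = x - 140 := by push_cast; ring
  have e1 : x + 35 * (((1 : ℕ) : ℝ) - 4) = x - 105 := by push_cast; ring
  have e2 : x + 35 * (((2 : ℕ) : ℝ) - 4) = x - 70 := by push_cast; ring
  have e3 : x + 35 * (((3 : ℕ) : ℝ) - 4) = x - 35 := by push_cast; ring
  have e4 : x + 35 * (((4 : ℕ) : ℝ) - 4) = x := by push_cast; ring
  have e5 : x + 35 * (((5 : ℕ) : ℝ) - 4) = x + 35 := by push_cast; ring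
  have e6 : x + 35 * (((6 : ℕ) : ℝ) - 4) = x + 70 := by push_cast; ring
  have e7 : x + 35 * (((7 : ℕ) : ℝ) - 4) = x + 105 := by push_cast; ring
  rw [Finset.sum_range_succ, Finset.sum_range_succ, Finset.sum_range_succ, Finset.sum_range_succ,
    Finset.sum_range_succ, Finset.sum_range_succ, Finset.sum_range_succ, Finset.sum_range_succ,
    Finset.sum_range_zero, e0, e1, e2, e3, e4, e5, e6, e7]
  ring

lemma range_5_7 {g : ℝ → ℂ} {x : ℝ} (h1 : 5 < x) (h2 : x ≤ 7)
    (h : ∑ k ∈ Finset.range 8, (-1 : ℂ) ^ k *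
      (Om.indicator (fun _ => (1 : ℂ)) (x + 35 * ((k : ℝ) - 4)) * g (x + 35 * ((k : ℝ) - 4))) = 0) :
    -g (x - 35) + g x = 0 := by
  rw [sum8 (fun y => Om.indicator (fun _ => (1 : ℂ)) y * g y)] at h
  have m0 : (x - 140) ∉ Om := by
    intro hm
    rw [mem_Om] at hm
    rcases hm with hm | hm | hm | hm | hm | hm <;> linarith [hm.1, hm.2]
  have m1 : (x - 105) ∉ Om := by
    intro hm
    rw [mem_Om] at hm
    rcases hm with hm | hm | hm | hm | hm | hm <;> linarith [hm.1, hm.2]
  have m2 : (x - 70) ∉ Om := by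
    intro hm
    rw [mem_Om] at hm
    rcases hm with hm | hm | hm | hm | hm | hm <;> linarith [hm.1, hm.2]
  have m3 : (x - 35) ∈ Om := by
    rw [mem_Om]
    right; right; right; right; left; constructor <;> linarith
  have m4 : x ∈ Om := by
    rw [mem_Om]
    left; constructor <;> linarith
  have m5 : (x + 35) ∉ Om := by
    intro hm
    rw [mem_Om] at hm
    rcases hm with hm | hm | hm | hm | hm | hm <;> linarith [hm.1, hm.2]
  have m6 : (x + 70) ∉ Om := by
    intro hm
    rw [mem_Om] at hm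
    rcases hm with hm | hm | hm | hm | hm | hm <;> linarith [hm.1, hm.2]
  have m7 : (x + 105) ∉ Om := by
    intro hm
    rw [mem_Om] at hm
    rcases hm with hm | hm | hm | hm | hm | hm <;> linarith [hm.1, hm.2]
  simp only [indicator_of_notMem m0, indicator_of_notMem m1, indicator_of_notMem m2, indicator_of_mem m3, indicator_of_mem m4, indicator_of_notMem m5, indicator_of_notMem m6, indicator_of_notMem m7] at h
  linear_combination h

lemma range_15_20 {g : ℝ → ℂ} {x : ℝ} (h1 : 15 < x) (h2 : x ≤ 20)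
    (h : ∑ k ∈ Finset.range 8, (-1 : ℂ) ^ k *
      (Om.indicator (fun _ => (1 : ℂ)) (x + 35 * ((k : ℝ) - 4)) * g (x + 35 * ((k : ℝ) - 4))) = 0) :
    -g (x - 35) + g x = 0 := by
  rw [sum8 (fun y => Om.indicator (fun _ => (1 : ℂ)) y * g y)] at h
  have m0 : (x - 140) ∉ Om := by
    intro hm
    rw [mem_Om] at hm
    rcases hm with hm | hm | hm | hm | hm | hm <;> linarith [hm.1, hm.2]
  have m1 : (x - 105) ∉ Om := by
    intro hm
    rw [mem_Om] at hm
    rcases hm with hm | hm | hm | hm | hm | hm <;> linarith [hm.1, hm.2]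
  have m2 : (x - 70) ∉ Om := by
    intro hm
    rw [mem_Om] at hm
    rcases hm with hm | hm | hm | hm | hm | hm <;> linarith [hm.1, hm.2]
  have m3 : (x - 35) ∈ Om := by
    rw [mem_Om]
    right; right; right; right; left; constructor <;> linarith
  have m4 : x ∈ Om := by
    rw [mem_Om]
    right; left; constructor <;> linarith
  have m5 : (x + 35) ∉ Om := by
    intro hm
    rw [mem_Om] at hm
    rcases hm with hm | hm | hm | hm | hm | hm <;> linarith [hm.1, hm.2]
  have m6 : (x + 70) ∉ Om := by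
    intro hm
    rw [mem_Om] at hm
    rcases hm with hm | hm | hm | hm | hm | hm <;> linarith [hm.1, hm.2]
  have m7 : (x + 105) ∉ Om := by
    intro hm
    rw [mem_Om] at hm
    rcases hm with hm | hm | hm | hm | hm | hm <;> linarith [hm.1, hm.2]
  simp only [indicator_of_notMem m0, indicator_of_notMem m1, indicator_of_notMem m2, indicator_of_mem m3, indicator_of_mem m4, indicator_of_notMem m5, indicator_of_notMem m6, indicator_of_notMem m7] at h
  linear_combination h

lemma range_28_30 {g : ℝ → ℂ} {x : ℝ} (h1 : 28 < x) (h2 : x ≤ 30)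
    (h : ∑ k ∈ Finset.range 8, (-1 : ℂ) ^ k *
      (Om.indicator (fun _ => (1 : ℂ)) (x + 35 * ((k : ℝ) - 4)) * g (x + 35 * ((k : ℝ) - 4))) = 0) :
    -g (x - 35) + g x = 0 := by
  rw [sum8 (fun y => Om.indicator (fun _ => (1 : ℂ)) y * g y)] at h
  have m0 : (x - 140) ∉ Om := by
    intro hm
    rw [mem_Om] at hm
    rcases hm with hm | hm | hm | hm | hm | hm <;> linarith [hm.1, hm.2]
  have m1 : (x - 105) ∉ Om := by
    intro hm
    rw [mem_Om] at hm
    rcases hm with hm | hm | hm | hm | hm | hm <;> linarith [hm.1, hm.2]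
  have m2 : (x - 70) ∉ Om := by
    intro hm
    rw [mem_Om] at hm
    rcases hm with hm | hm | hm | hm | hm | hm <;> linarith [hm.1, hm.2]
  have m3 : (x - 35) ∈ Om := by
    rw [mem_Om]
    right; right; right; left; constructor <;> linarith
  have m4 : x ∈ Om := by
    rw [mem_Om]
    right; left; constructor <;> linarith
  have m5 : (x + 35) ∉ Om := by
    intro hm
    rw [mem_Om] at hm
    rcases hm with hm | hm | hm | hm | hm | hm <;> linarith [hm.1, hm.2]
  have m6 : (x + 70) ∉ Om := by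
    intro hm
    rw [mem_Om] at hm
    rcases hm with hm | hm | hm | hm | hm | hm <;> linarith [hm.1, hm.2]
  have m7 : (x + 105) ∉ Om := by
    intro hm
    rw [mem_Om] at hm
    rcases hm with hm | hm | hm | hm | hm | hm <;> linarith [hm.1, hm.2]
  simp only [indicator_of_notMem m0, indicator_of_notMem m1, indicator_of_notMem m2, indicator_of_mem m3, indicator_of_mem m4, indicator_of_notMem m5, indicator_of_notMem m6, indicator_of_notMem m7] at h
  linear_combination h

lemma range_20_28 {g : ℝ → ℂ} {x : ℝ} (h1 : 20 < x) (h2 : x ≤ 28)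
    (h : ∑ k ∈ Finset.range 8, (-1 : ℂ) ^ k *
      (Om.indicator (fun _ => (1 : ℂ)) (x + 35 * ((k : ℝ) - 4)) * g (x + 35 * ((k : ℝ) - 4))) = 0) :
    g (x - 140) + g x = 0 := by
  rw [sum8 (fun y => Om.indicator (fun _ => (1 : ℂ)) y * g y)] at h
  have m0 : (x - 140) ∈ Om := by
    rw [mem_Om]
    right; right; right; right; right; constructor <;> linarith
  have m1 : (x - 105) ∉ Om := by
    intro hm
    rw [mem_Om] at hm
    rcases hm with hm | hm | hm | hm | hm | hm <;> linarith [hm.1, hm.2]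
  have m2 : (x - 70) ∉ Om := by
    intro hm
    rw [mem_Om] at hm
    rcases hm with hm | hm | hm | hm | hm | hm <;> linarith [hm.1, hm.2]
  have m3 : (x - 35) ∉ Om := by
    intro hm
    rw [mem_Om] at hm
    rcases hm with hm | hm | hm | hm | hm | hm <;> linarith [hm.1, hm.2]
  have m4 : x ∈ Om := by
    rw [mem_Om]
    right; left; constructor <;> linarith
  have m5 : (x + 35) ∉ Om := by
    intro hm
    rw [mem_Om] at hm
    rcases hm with hm | hm | hm | hm | hm | hm <;> linarith [hm.1, hm.2]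
  have m6 : (x + 70) ∉ Om := by
    intro hm
    rw [mem_Om] at hm
    rcases hm with hm | hm | hm | hm | hm | hm <;> linarith [hm.1, hm.2]
  have m7 : (x + 105) ∉ Om := by
    intro hm
    rw [mem_Om] at hm
    rcases hm with hm | hm | hm | hm | hm | hm <;> linarith [hm.1, hm.2]
  simp only [indicator_of_mem m0, indicator_of_notMem m1, indicator_of_notMem m2, indicator_of_notMem m3, indicator_of_mem m4, indicator_of_notMem m5, indicator_of_notMem m6, indicator_of_notMem m7] at h
  linear_combination h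

lemma range_7_15 {g : ℝ → ℂ} {x : ℝ} (h1 : 7 < x) (h2 : x ≤ 15)
    (h : ∑ k ∈ Finset.range 8, (-1 : ℂ) ^ k *
      (Om.indicator (fun _ => (1 : ℂ)) (x + 35 * ((k : ℝ) - 4)) * g (x + 35 * ((k : ℝ) - 4))) = 0) :
    -g (x - 35) - g (x + 105) = 0 := by
  rw [sum8 (fun y => Om.indicator (fun _ => (1 : ℂ)) y * g y)] at h
  have m0 : (x - 140) ∉ Om := by
    intro hm
    rw [mem_Om] at hm
    rcases hm with hm | hm | hm | hm | hm | hm <;> linarith [hm.1, hm.2]
  have m1 : (x - 105) ∉ Om := by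
    intro hm
    rw [mem_Om] at hm
    rcases hm with hm | hm | hm | hm | hm | hm <;> linarith [hm.1, hm.2]
  have m2 : (x - 70) ∉ Om := by
    intro hm
    rw [mem_Om] at hm
    rcases hm with hm | hm | hm | hm | hm | hm <;> linarith [hm.1, hm.2]
  have m3 : (x - 35) ∈ Om := by
    rw [mem_Om]
    right; right; right; right; left; constructor <;> linarith
  have m4 : x ∉ Om := by
    intro hm
    rw [mem_Om] at hm
    rcases hm with hm | hm | hm | hm | hm | hm <;> linarith [hm.1, hm.2]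
  have m5 : (x + 35) ∉ Om := by
    intro hm
    rw [mem_Om] at hm
    rcases hm with hm | hm | hm | hm | hm | hm <;> linarith [hm.1, hm.2]
  have m6 : (x + 70) ∉ Om := by
    intro hm
    rw [mem_Om] at hm
    rcases hm with hm | hm | hm | hm | hm | hm <;> linarith [hm.1, hm.2]
  have m7 : (x + 105) ∈ Om := by
    rw [mem_Om]
    right; right; left; constructor <;> linarith
  simp only [indicator_of_notMem m0, indicator_of_notMem m1, indicator_of_notMem m2, indicator_of_mem m3, indicator_of_notMem m4, indicator_of_notMem m5, indicator_of_notMem m6, indicator_of_mem m7] at h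
  linear_combination h

lemma range_30_35 {g : ℝ → ℂ} {x : ℝ} (h1 : 30 < x) (h2 : x ≤ 35)
    (h : ∑ k ∈ Finset.range 8, (-1 : ℂ) ^ k *
      (Om.indicator (fun _ => (1 : ℂ)) (x + 35 * ((k : ℝ) - 4)) * g (x + 35 * ((k : ℝ) - 4))) = 0) :
    g (x - 70) + g x = 0 := by
  rw [sum8 (fun y => Om.indicator (fun _ => (1 : ℂ)) y * g y)] at h
  have m0 : (x - 140) ∉ Om := by
    intro hm
    rw [mem_Om] at hm
    rcases hm with hm | hm | hm | hm | hm | hm <;> linarith [hm.1, hm.2]
  have m1 : (x - 105) ∉ Om := by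
    intro hm
    rw [mem_Om] at hm
    rcases hm with hm | hm | hm | hm | hm | hm <;> linarith [hm.1, hm.2]
  have m2 : (x - 70) ∈ Om := by
    rw [mem_Om]
    right; right; right; right; left; constructor <;> linarith
  have m3 : (x - 35) ∉ Om := by
    intro hm
    rw [mem_Om] at hm
    rcases hm with hm | hm | hm | hm | hm | hm <;> linarith [hm.1, hm.2]
  have m4 : x ∈ Om := by
    rw [mem_Om]
    right; left; constructor <;> linarith
  have m5 : (x + 35) ∉ Om := by
    intro hm
    rw [mem_Om] at hm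
    rcases hm with hm | hm | hm | hm | hm | hm <;> linarith [hm.1, hm.2]
  have m6 : (x + 70) ∉ Om := by
    intro hm
    rw [mem_Om] at hm
    rcases hm with hm | hm | hm | hm | hm | hm <;> linarith [hm.1, hm.2]
  have m7 : (x + 105) ∉ Om := by
    intro hm
    rw [mem_Om] at hm
    rcases hm with hm | hm | hm | hm | hm | hm <;> linarith [hm.1, hm.2]
  simp only [indicator_of_notMem m0, indicator_of_notMem m1, indicator_of_mem m2, indicator_of_notMem m3, indicator_of_mem m4, indicator_of_notMem m5, indicator_of_notMem m6, indicator_of_notMem m7] at h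
  linear_combination h

lemma range_0_5 {g : ℝ → ℂ} {x : ℝ} (h1 : 0 < x) (h2 : x ≤ 5)
    (h : ∑ k ∈ Finset.range 8, (-1 : ℂ) ^ k *
      (Om.indicator (fun _ => (1 : ℂ)) (x + 35 * ((k : ℝ) - 4)) * g (x + 35 * ((k : ℝ) - 4))) = 0) :
    -g (x - 35) - g (x + 35) = 0 := by
  rw [sum8 (fun y => Om.indicator (fun _ => (1 : ℂ)) y * g y)] at h
  have m0 : (x - 140) ∉ Om := by
    intro hm
    rw [mem_Om] at hm
    rcases hm with hm | hm | hm | hm | hm | hm <;> linarith [hm.1, hm.2]
  have m1 : (x - 105) ∉ Om := by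
    intro hm
    rw [mem_Om] at hm
    rcases hm with hm | hm | hm | hm | hm | hm <;> linarith [hm.1, hm.2]
  have m2 : (x - 70) ∉ Om := by
    intro hm
    rw [mem_Om] at hm
    rcases hm with hm | hm | hm | hm | hm | hm <;> linarith [hm.1, hm.2]
  have m3 : (x - 35) ∈ Om := by
    rw [mem_Om]
    right; right; right; right; left; constructor <;> linarith
  have m4 : x ∉ Om := by
    intro hm
    rw [mem_Om] at hm
    rcases hm with hm | hm | hm | hm | hm | hm <;> linarith [hm.1, hm.2]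
  have m5 : (x + 35) ∈ Om := by
    rw [mem_Om]
    right; left; constructor <;> linarith
  have m6 : (x + 70) ∉ Om := by
    intro hm
    rw [mem_Om] at hm
    rcases hm with hm | hm | hm | hm | hm | hm <;> linarith [hm.1, hm.2]
  have m7 : (x + 105) ∉ Om := by
    intro hm
    rw [mem_Om] at hm
    rcases hm with hm | hm | hm | hm | hm | hm <;> linarith [hm.1, hm.2]
  simp only [indicator_of_notMem m0, indicator_of_notMem m1, indicator_of_notMem m2, indicator_of_mem m3, indicator_of_notMem m4, indicator_of_mem m5, indicator_of_notMem m6, indicator_of_notMem m7] at h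
  linear_combination h

end Pool.Agent.Lib.MP_b00f94_an
end

section

/-!
# MP_b00f94_an : completeness on the frequency side, conclusion
-/

namespace Pool.Agent.Lib.MP_b00f94_an

open MeasureTheory Set
open scoped ENNReal

lemma qmp_mul {a : ℝ} (ha : a ≠ 0) :
    Measure.QuasiMeasurePreserving (fun x : ℝ => a * x) volume volume := by
  refine ⟨measurable_const_mul a, ?_⟩
  rw [Real.map_volume_mul_left ha]
  exact Measure.smul_absolutelyContinuous

lemma memLp_comp_mul {g : ℝ → ℂ} (hg : MemLp g 2 volume) {a : ℝ} (ha : a ≠ 0) :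
    MemLp (fun x => g (a * x)) 2 volume := by
  have h1 : AEStronglyMeasurable (fun x => g (a * x)) volume :=
    hg.1.comp_quasiMeasurePreserving (qmp_mul ha)
  rw [memLp_two_iff_integrable_sq_norm h1]
  have h2 := (memLp_two_iff_integrable_sq_norm hg.1).1 hg
  exact (integrable_comp_mul_left_iff (fun x => ‖g x‖ ^ 2) ha).2 h2

/-- the function at scale `n`, cut to the set -/
noncomputable def Fg (g : ℝ → ℂ) (n : ℤ) (y : ℝ) : ℂ :=
  Om.indicator (fun _ => (1 : ℂ)) y * g (2 ^ n * y)

/-- the relations at scale `n` -/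
lemma relations {g : ℝ → ℂ} (hg : MemLp g 2 volume) (n : ℤ)
    (h : ∀ m, ∫ η, g η * (starRingEnd ℂ) (HH n m η) = 0) :
    ∀ᵐ x ∂(volume.restrict (Ioc (0 : ℝ) 35)),
      ∑ k ∈ Finset.range 8, (-1 : ℂ) ^ k * Fg g n (x + 35 * ((k : ℝ) - 4)) = 0 := by
  have hn := (zpow_two_pos n).ne'
  have hG := memLp_comp_mul hg hn
  have hO : MemLp (Om.indicator (fun _ => (1 : ℂ))) 2 volume :=
    memLp_indicator_const 2 measurableSet_Om _ (Or.inr volume_Om_lt_top.ne)
  have hint : Integrable (Fg g n) := hO.integrable_mul hG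
  have hF : MemLp (Fg g n) 2 volume := by
    apply hG.of_le hint.1
    apply Filter.Eventually.of_forall
    intro x
    unfold Fg
    by_cases hx : x ∈ Om
    · rw [indicator_of_mem hx, one_mul]
    · rw [indicator_of_notMem hx, zero_mul, norm_zero]
      exact norm_nonneg _
  refine fold hF hint ?_ ?_
  · intro x hx
    unfold Fg
    rw [indicator_of_notMem, zero_mul]
    intro hx2
    apply hx
    have := abs_le.1 (Om_bound hx2)
    exact ⟨by linarith [this.1], by linarith [this.2]⟩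
  · intro m
    have h1 := scale_zero' (a := 2 ^ n) (h m)
    have e1 : ∀ ξ : ℝ, g (2 ^ n * ξ) * (starRingEnd ℂ) (HH n m (2 ^ n * ξ)) =
        (((Real.sqrt ((2 : ℝ) ^ n))⁻¹ : ℝ) : ℂ) *
          (Fg g n ξ * ee (tt m * ξ)) := by
      intro ξ
      unfold HH Fg
      rw [mul_div_cancel_left₀ _ hn, map_mul, map_mul, indicator_re, conj_ee,
        Complex.conj_ofReal, neg_neg]
      ring
    simp only [e1] at h1
    rw [integral_const_mul] at h1
    rcases mul_eq_zero.1 h1 with h2 | h2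
    · exfalso
      have : (Real.sqrt ((2 : ℝ) ^ n))⁻¹ ≠ 0 := by
        apply inv_ne_zero
        rw [Real.sqrt_ne_zero (zpow_two_pos n).le]
        exact hn
      exact this (by exact_mod_cast h2)
    · exact h2

lemma relations' {g : ℝ → ℂ} (hg : MemLp g 2 volume) (n : ℤ)
    (h : ∀ m, ∫ η, g η * (starRingEnd ℂ) (HH n m η) = 0) :
    ∀ᵐ x : ℝ,
      ((5 < x ∧ x ≤ 7) ∨ (15 < x ∧ x ≤ 20) ∨ (28 < x ∧ x ≤ 30) →
        g (2 ^ n * x) = g (2 ^ n * (x - 35))) ∧
      ((20 < x ∧ x ≤ 28) ∨ (112 < x ∧ x ≤ 120) → g (2 ^ n * x) = -g (2 ^ n * (x - 140))) ∧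
      (30 < x ∧ x ≤ 40 → g (2 ^ n * x) = -g (2 ^ n * (x - 70))) := by
  have h0 := relations hg n h
  rw [ae_restrict_iff' measurableSet_Ioc] at h0
  have h1 : ∀ᵐ x : ℝ, x - 105 ∈ Ioc (0 : ℝ) 35 →
      ∑ k ∈ Finset.range 8, (-1 : ℂ) ^ k * Fg g n ((x - 105) + 35 * ((k : ℝ) - 4)) = 0 :=
    (measurePreserving_sub_right volume (105 : ℝ)).quasiMeasurePreserving.ae h0
  have h2 : ∀ᵐ x : ℝ, x - 35 ∈ Ioc (0 : ℝ) 35 →
      ∑ k ∈ Finset.range 8, (-1 : ℂ) ^ k * Fg g n ((x - 35) + 35 * ((k : ℝ) - 4)) = 0 :=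
    (measurePreserving_sub_right volume (35 : ℝ)).quasiMeasurePreserving.ae h0
  filter_upwards [h0, h1, h2] with x h0 h1 h2
  unfold Fg at h0 h1 h2
  refine ⟨?_, ?_, ?_⟩
  · rintro (hx | hx | hx)
    · have := range_5_7 (g := fun y => g (2 ^ n * y)) hx.1 hx.2
        (h0 ⟨by linarith [hx.1], by linarith [hx.2]⟩)
      linear_combination this
    · have := range_15_20 (g := fun y => g (2 ^ n * y)) hx.1 hx.2
        (h0 ⟨by linarith [hx.1], by linarith [hx.2]⟩)
      linear_combination this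
    · have := range_28_30 (g := fun y => g (2 ^ n * y)) hx.1 hx.2
        (h0 ⟨by linarith [hx.1], by linarith [hx.2]⟩)
      linear_combination this
  · rintro (hx | hx)
    · have := range_20_28 (g := fun y => g (2 ^ n * y)) hx.1 hx.2
        (h0 ⟨by linarith [hx.1], by linarith [hx.2]⟩)
      linear_combination this
    · have := range_7_15 (g := fun y => g (2 ^ n * y)) (x := x - 105) (by linarith [hx.1])
        (by linarith [hx.2]) (h1 ⟨by linarith [hx.1], by linarith [hx.2]⟩)
      have e1 : x - 105 - 35 = x - 140 := by ring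
      have e2 : x - 105 + 105 = x := by ring
      rw [e1, e2] at this
      linear_combination -this
  · intro hx
    rcases le_or_gt x 35 with h35 | h35
    · have := range_30_35 (g := fun y => g (2 ^ n * y)) hx.1 h35
        (h0 ⟨by linarith [hx.1], h35⟩)
      linear_combination this
    · have := range_0_5 (g := fun y => g (2 ^ n * y)) (x := x - 35) (by linarith)
        (by linarith [hx.2]) (h2 ⟨by linarith, by linarith [hx.2]⟩)
      have e1 : x - 35 - 35 = x - 70 := by ring
      have e2 : x - 35 + 35 = x := by ring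
      rw [e1, e2] at this
      linear_combination -this

lemma vanish {g : ℝ → ℂ} (hg : MemLp g 2 volume)
    (h : ∀ n m, ∫ η, g η * (starRingEnd ℂ) (HH n m η) = 0) (n : ℤ) :
    ∀ᵐ y : ℝ, (5 < y ∧ y ≤ 7) ∨ (15 < y ∧ y ≤ 20) ∨ (28 < y ∧ y ≤ 30) →
      g (2 ^ n * y) = 0 ∧ g (2 ^ n * (y - 35)) = 0 := by
  have r0 := relations' hg n (h n)
  have r1 : ∀ᵐ y : ℝ, _ := (qmp_mul (a := 2) (by norm_num)).ae (relations' hg (n - 1) (h (n - 1)))
  have r2 : ∀ᵐ y : ℝ, _ := (qmp_mul (a := 4) (by norm_num)).ae (relations' hg (n - 2) (h (n - 2)))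
  have z1 : ∀ x : ℝ, (2 : ℝ) ^ (n - 1) * (2 * x) = 2 ^ n * x := by
    intro x
    rw [zpow_sub₀ (by norm_num)]
    norm_num
    ring
  have z2 : ∀ x : ℝ, (2 : ℝ) ^ (n - 2) * (4 * x) = 2 ^ n * x := by
    intro x
    rw [zpow_sub₀ (by norm_num)]
    norm_num
    ring
  filter_upwards [r0, r1, r2] with y h0 h1 h2 hy
  have a0 := h0.1 hy
  have fin : g (2 ^ n * y) = -g (2 ^ n * (y - 35)) → g (2 ^ n * y) = 0 ∧
      g (2 ^ n * (y - 35)) = 0 := by
    intro hh
    have e1 : g (2 ^ n * (y - 35)) = 0 := by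
      have : (2 : ℂ) * g (2 ^ n * (y - 35)) = 0 := by linear_combination hh - a0
      simpa using this
    exact ⟨by rw [a0, e1], e1⟩
  apply fin
  rcases hy with hy | hy | hy
  · have b := h2.2.1 (Or.inl ⟨by linarith [hy.1], by linarith [hy.2]⟩)
    have e1 : 4 * y - 140 = 4 * (y - 35) := by ring
    rw [e1, z2, z2] at b
    exact b
  · have b := h1.2.2 ⟨by linarith [hy.1], by linarith [hy.2]⟩
    have e1 : 2 * y - 70 = 2 * (y - 35) := by ring
    rw [e1, z1, z1] at b
    exact b
  · have b := h2.2.1 (Or.inr ⟨by linarith [hy.1], by linarith [hy.2]⟩)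
    have e1 : 4 * y - 140 = 4 * (y - 35) := by ring
    rw [e1, z2, z2] at b
    exact b

/-- the generating set of dyadic orbits -/
def TT : Set ℝ := Ioc 5 7 ∪ Ioc 15 20 ∪ Ioc 28 30 ∪ Ioc (-30) (-28) ∪ Ioc (-20) (-15) ∪
  Ioc (-7) (-5)

lemma mem_TT {x : ℝ} : x ∈ TT ↔ ((5 < x ∧ x ≤ 7) ∨ (15 < x ∧ x ≤ 20) ∨ (28 < x ∧ x ≤ 30)) ∨
    ((-30 < x ∧ x ≤ -28) ∨ (-20 < x ∧ x ≤ -15) ∨ (-7 < x ∧ x ≤ -5)) := by
  simp only [TT, mem_union, mem_Ioc]
  tauto

lemma exists_dyadic {x : ℝ} (hx : x ≠ 0) : ∃ n : ℤ, x / 2 ^ n ∈ TT := by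
  rcases lt_or_gt_of_ne hx with h | h
  · have h1 : 0 < -x / 15 := by linarith
    obtain ⟨k, hk⟩ := exists_mem_Ico_zpow h1 (by norm_num : (1 : ℝ) < 2)
    have hp := zpow_two_pos k
    have h2 : 15 ≤ -x / 2 ^ k := by
      rw [le_div_iff₀ hp]
      linarith [hk.1]
    have h3 : -x / 2 ^ k < 30 := by
      rw [div_lt_iff₀ hp]
      have := hk.2
      rw [zpow_add₀ (by norm_num)] at this
      norm_num at this
      linarith
    have e1 : x / 2 ^ k = -(-x / 2 ^ k) := by ring
    by_cases c1 : -x / 2 ^ k < 20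
    · refine ⟨k, ?_⟩
      rw [mem_TT, e1]
      right; right; left
      constructor <;> linarith
    · by_cases c2 : -x / 2 ^ k < 28
      · refine ⟨k + 2, ?_⟩
        rw [mem_TT]
        have e2 : x / 2 ^ (k + 2) = -(-x / 2 ^ k) / 4 := by
          rw [zpow_add₀ (by norm_num)]
          field_simp
          norm_num
        rw [e2]
        right; right; right
        push Not at c1
        constructor <;> linarith
      · refine ⟨k, ?_⟩
        rw [mem_TT, e1]
        push Not at c2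
        right; left
        constructor <;> linarith
  · have h1 : 0 < x / 15 := by positivity
    obtain ⟨k, hk⟩ := exists_mem_Ioc_zpow h1 (by norm_num : (1 : ℝ) < 2)
    have hp := zpow_two_pos k
    have h2 : 15 < x / 2 ^ k := by
      rw [lt_div_iff₀ hp]
      linarith [hk.1]
    have h3 : x / 2 ^ k ≤ 30 := by
      rw [div_le_iff₀ hp]
      have := hk.2
      rw [zpow_add₀ (by norm_num)] at this
      norm_num at this
      linarith
    by_cases c1 : x / 2 ^ k ≤ 20
    · refine ⟨k, ?_⟩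
      rw [mem_TT]
      left; right; left
      constructor <;> linarith
    · push Not at c1
      by_cases c2 : x / 2 ^ k ≤ 28
      · refine ⟨k + 2, ?_⟩
        rw [mem_TT]
        have e2 : x / 2 ^ (k + 2) = (x / 2 ^ k) / 4 := by
          rw [zpow_add₀ (by norm_num)]
          field_simp
          norm_num
        rw [e2]
        left; left
        constructor <;> linarith
      · push Not at c2
        refine ⟨k, ?_⟩
        rw [mem_TT]
        left; right; right
        constructor <;> linarith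

theorem HH_complete {g : ℝ → ℂ} (hg : MemLp g 2 volume)
    (h : ∀ n m, ∫ η, g η * (starRingEnd ℂ) (HH n m η) = 0) : g =ᵐ[volume] 0 := by
  have h1 : ∀ n : ℤ, ∀ᵐ y : ℝ, y ∈ TT → g (2 ^ n * y) = 0 := by
    intro n
    have v1 := vanish hg h n
    have v2 : ∀ᵐ y : ℝ, _ := (measurePreserving_add_right volume (35 : ℝ)).quasiMeasurePreserving.ae v1
    filter_upwards [v1, v2] with y h1 h2 hy
    rw [mem_TT] at hy
    rcases hy with hy | hy
    · exact (h1 hy).1
    · have h3 := h2 (by
        rcases hy with hy | hy | hy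
        · left; constructor <;> linarith [hy.1, hy.2]
        · right; left; constructor <;> linarith [hy.1, hy.2]
        · right; right; constructor <;> linarith [hy.1, hy.2])
      have h4 := h3.2
      rw [add_sub_cancel_right] at h4
      exact h4
  have h2 : ∀ n : ℤ, ∀ᵐ x : ℝ, x / 2 ^ n ∈ TT → g x = 0 := by
    intro n
    have hn := (zpow_two_pos n).ne'
    have : ∀ᵐ x : ℝ, _ := (qmp_mul (a := (2 ^ n)⁻¹) (inv_ne_zero hn)).ae (h1 n)
    filter_upwards [this] with x hx hxT
    have e1 : (2 ^ n : ℝ)⁻¹ * x = x / 2 ^ n := by ring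
    have e2 : (2 : ℝ) ^ n * (x / 2 ^ n) = x := mul_div_cancel₀ x hn
    rw [e1, e2] at hx
    exact hx hxT
  rw [← ae_all_iff] at h2
  have h3 : ∀ᵐ x : ℝ, x ≠ 0 := by
    rw [ae_iff]
    simp
  filter_upwards [h2, h3] with x hx hx0
  obtain ⟨n, hn⟩ := exists_dyadic hx0
  exact hx n hn

end Pool.Agent.Lib.MP_b00f94_an
end

section

/-!
# MP_b00f94_an : conclusion
-/

namespace Pool.Agent.Lib.MP_b00f94_an

open MeasureTheory Set FourierTransform
open scoped ENNReal

/-- multiplication by a nonzero real as an automorphism -/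
noncomputable def dilE (a : ℝ) (ha : a ≠ 0) : ℝ ≃ₜ+ ℝ where
  toFun x := a * x
  invFun x := a⁻¹ * x
  left_inv x := by
    simp only
    rw [← mul_assoc, inv_mul_cancel₀ ha, one_mul]
  right_inv x := by
    simp only
    rw [← mul_assoc, mul_inv_cancel₀ ha, one_mul]
  map_add' x y := mul_add a x y
  continuous_toFun := continuous_const.mul continuous_id
  continuous_invFun := continuous_const.mul continuous_id

lemma dilE_apply (a : ℝ) (ha : a ≠ 0) (x : ℝ) : dilE a ha x = a * x := rfl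

/-- the dilation `x ↦ 2^n x` -/
noncomputable def dil (n : ℤ) : ℝ ≃ₜ+ ℝ := dilE (2 ^ n) (zpow_two_pos n).ne'

lemma dil_apply (n : ℤ) (x : ℝ) : dil n x = 2 ^ n * x := rfl

lemma dil_injective : Function.Injective dil := by
  intro n m h
  have h1 : dil n 1 = dil m 1 := by rw [h]
  rw [dil_apply, dil_apply, mul_one, mul_one] at h1
  exact zpow_right_injective₀ (by norm_num) (by norm_num) h1

lemma tt_injective : Function.Injective tt := by
  intro m m' h
  unfold tt at h
  have h1 : (2 * m + 1 : ℝ) = 2 * m' + 1 := by linarith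
  have h2 : (m : ℝ) = m' := by linarith
  exact_mod_cast h2

lemma modular_dil (n : ℤ) : modular (dil n) = 2 ^ n := by
  unfold modular
  have h1 : (dil n : ℝ → ℝ) '' Icc (0 : ℝ) 1 = Icc (0 : ℝ) (2 ^ n) := by
    have h2 := Set.image_mul_left_Icc (zpow_two_pos n).le (zero_le_one' ℝ)
    rw [mul_zero, mul_one] at h2
    exact h2
  rw [h1, Real.volume_Icc, sub_zero, ENNReal.toReal_ofReal (zpow_two_pos n).le]

/-- the wavelet -/
noncomputable def psi (x : ℝ) : ℂ := ∫ y, ee (x * y) * Om.indicator (fun _ => (1 : ℂ)) y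

lemma Om_memLp (p : ℝ≥0∞) : MemLp (Om.indicator (fun _ => (1 : ℂ))) p volume :=
  memLp_indicator_const p measurableSet_Om _ (Or.inr volume_Om_lt_top.ne)

lemma Om_integrable : Integrable (Om.indicator (fun _ => (1 : ℂ))) :=
  memLp_one_iff_integrable.1 (Om_memLp 1)

lemma psi_ae : ((𝓕⁻ ((Om_memLp 2).toLp _) : Lp ℂ 2 (volume : Measure ℝ)) : ℝ → ℂ) =ᵐ[volume]
    psi := fourierInv_toLp Om_integrable (Om_memLp 2)

lemma psi_memLp : MemLp psi 2 volume := (memLp_congr_ae psi_ae).1 (Lp.memLp _)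

lemma fourier_psi : ((𝓕 (psi_memLp.toLp psi) : Lp ℂ 2 (volume : Measure ℝ)) : ℝ → ℂ) =ᵐ[volume]
    Om.indicator (fun _ => (1 : ℂ)) := by
  have h1 : psi_memLp.toLp psi = 𝓕⁻ ((Om_memLp 2).toLp _) := by
    apply Lp.ext
    exact psi_memLp.coeFn_toLp.trans psi_ae.symm
  have h2 : 𝓕 (𝓕⁻ ((Om_memLp 2).toLp (Om.indicator (fun _ => (1 : ℂ))))) =
      (Om_memLp 2).toLp (Om.indicator (fun _ => (1 : ℂ))) :=
    FourierInvPair.fourier_fourierInv_eq _
  rw [h1, h2]
  exact (Om_memLp 2).coeFn_toLp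

lemma wavelet_eq (n m : ℤ) (x : ℝ) :
    wavelet psi (dil n) (tt m) x = ∫ y, ee (x * y) * HH n m y := by
  have hn := zpow_two_pos n
  have h1 : ∫ y, ee (x * y) * HH n m y =
      (2 : ℝ) ^ n • ∫ ξ, ee (x * (2 ^ n * ξ)) * HH n m (2 ^ n * ξ) := by
    rw [Measure.integral_comp_mul_left (fun y => ee (x * y) * HH n m y), abs_inv,
      abs_of_pos hn, smul_smul, mul_inv_cancel₀ hn.ne', one_smul]
  rw [h1]
  unfold wavelet
  rw [modular_dil, dil_apply]
  have h2 : ∀ ξ : ℝ, ee (x * (2 ^ n * ξ)) * HH n m (2 ^ n * ξ) =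
      (((Real.sqrt ((2 : ℝ) ^ n))⁻¹ : ℝ) : ℂ) *
        (ee ((2 ^ n * x - tt m) * ξ) * Om.indicator (fun _ => (1 : ℂ)) ξ) := by
    intro ξ
    unfold HH
    rw [mul_div_cancel_left₀ _ hn.ne']
    have e2 : ee ((2 ^ n * x - tt m) * ξ) = ee (x * (2 ^ n * ξ)) * ee (-(tt m * ξ)) := by
      rw [← ee_add]
      congr 1
      ring
    rw [e2]
    ring
  simp only [h2]
  rw [integral_const_mul, Complex.real_smul, ← mul_assoc]
  have h3 : (((2 : ℝ) ^ n : ℝ) : ℂ) * (((Real.sqrt ((2 : ℝ) ^ n))⁻¹ : ℝ) : ℂ) =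
      ((Real.sqrt ((2 : ℝ) ^ n) : ℝ) : ℂ) := by
    rw [← Complex.ofReal_mul]
    congr 1
    have h4 : Real.sqrt ((2 : ℝ) ^ n) ≠ 0 := by
      rw [Real.sqrt_ne_zero hn.le]
      exact hn.ne'
    have h5 := Real.mul_self_sqrt hn.le
    field_simp
    linarith
  rw [h3]
  rfl

theorem isOrthBasis_HH {I : Type} (N M : I → ℤ) (hinj : ∀ i j, N i = N j → M i = M j → i = j)
    (hsurj : ∀ n m, ∃ i, N i = n ∧ M i = m) : IsOrthBasis fun i => HH (N i) (M i) := by
  refine ⟨fun i => HH_memLp _ _ 2, fun i => HH_norm_pos _ _, ?_, ?_⟩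
  · intro i j hij
    apply HH_orth
    rintro ⟨h1, h2⟩
    exact hij (hinj i j h1 h2)
  · intro g hg h
    apply HH_complete hg
    intro n m
    obtain ⟨i, rfl, rfl⟩ := hsurj n m
    exact h i

theorem isWaveletSet_Om : IsWaveletSet (range dil) (range tt) Om where
  countable_dil := countable_range dil
  countable_trans := countable_range tt
  measurable := measurableSet_Om
  pos := volume_Om_pos
  finite := volume_Om_lt_top
  basis := by
    refine ⟨psi, psi_memLp, fourier_psi, ?_⟩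
    let N : (range dil) × (range tt) → ℤ := fun p => Classical.choose p.1.2
    let M : (range dil) × (range tt) → ℤ := fun p => Classical.choose p.2.2
    have hN : ∀ p, dil (N p) = p.1 := fun p => Classical.choose_spec p.1.2
    have hM : ∀ p, tt (M p) = p.2 := fun p => Classical.choose_spec p.2.2
    apply isOrthBasis_of_freq (H := fun p => HH (N p) (M p)) (fun p => HH_integrable _ _)
    · intro p x
      rw [← wavelet_eq, hN, hM]
    · apply isOrthBasis_HH N M
      · intro p q h1 h2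
        apply Prod.ext
        · apply Subtype.ext
          rw [← hN p, ← hN q, h1]
        · apply Subtype.ext
          rw [← hM p, ← hM q, h2]
      · intro n m
        refine ⟨(⟨dil n, mem_range_self n⟩, ⟨tt m, mem_range_self m⟩), ?_, ?_⟩
        · apply dil_injective
          exact hN _
        · apply tt_injective
          exact hM _

lemma zero_notMem_range_tt : (0 : ℝ) ∉ range tt := by
  rintro ⟨m, hm⟩
  unfold tt at hm
  rw [div_eq_zero_iff] at hm
  rcases hm with h | h
  · have : (2 * m + 1 : ℤ) = 0 := by exact_mod_cast h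
    omega
  · norm_num at h

lemma aut_apply (β : ℝ ≃ₜ+ ℝ) (x : ℝ) : β x = β 1 * x := by
  have h := map_real_smul (β : ℝ →+ ℝ) β.continuous_toFun x (1 : ℝ)
  have h2 : β (x • (1 : ℝ)) = x • β 1 := h
  rw [smul_eq_mul, mul_one, smul_eq_mul] at h2
  rw [h2, mul_comm]

lemma aut_one_ne_zero (β : ℝ ≃ₜ+ ℝ) : β 1 ≠ 0 := by
  intro h
  have h1 : β 1 = β 0 := by rw [h, aut_apply β 0, mul_zero]
  exact one_ne_zero (β.injective h1)

theorem not_tilesMult (A' : Set (ℝ ≃ₜ+ ℝ)) : ¬ TilesMult Om A' 1 := by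
  rintro ⟨adj, -, h⟩
  apply no_tile (fun α : A' => (adj α) 1) (fun α => aut_one_ne_zero _)
  filter_upwards [h] with ξ hξ
  rw [Nat.cast_one] at hξ
  refine Eq.trans ?_ hξ
  congr 1
  funext α
  congr 1
  unfold dOm
  apply image_congr
  intro x _
  rw [aut_apply (adj α) x]

end Pool.Agent.Lib.MP_b00f94_an
end
end
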